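import Mathlib

/-!
# Sums of powers and of powers of logarithms
-/

set_option autoImplicit false

open Filter Set
open scoped Topology

namespace Pool.Agent.N634.OS

lemma mv {F f : ℝ → ℝ} {a : ℕ} {c C : ℝ} (hF : ∀ x : ℝ, (a : ℝ) ≤ x → HasDerivAt F (f x) x)
    (hc : ∀ k : ℕ, a ≤ k → ∀ x : ℝ, (k : ℝ) ≤ x → x ≤ k + 1 → c * f k ≤ f x ∧ f x ≤ C * f k) (K : ℕ)
    (hK : a ≤ K) : c * ∑ k ∈ Finset.Ico a K, f k ≤ F K - F a ∧
      F K - F a ≤ C * ∑ k ∈ Finset.Ico a K, f k := by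
  induction K, hK using Nat.le_induction with
  | base => simp
  | succ K hK ih =>
    have haK : (a : ℝ) ≤ K := by exact_mod_cast hK
    obtain ⟨x, hx, hx2⟩ := exists_hasDerivAt_eq_slope F f (a := (K : ℝ)) (b := (K : ℝ) + 1) (by linarith)
      (fun x hx => (hF x (haK.trans hx.1)).continuousAt.continuousWithinAt)
      (fun x hx => hF x (haK.trans hx.1.le))
    rw [add_sub_cancel_left, div_one] at hx2
    have h1 := hc K hK x hx.1.le hx.2.le
    rw [Finset.sum_Ico_succ_top hK]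
    push_cast
    rw [mul_add, mul_add]
    constructor <;> linarith [ih.1, ih.2, h1.1, h1.2]

lemma rpow_ratio {q x y : ℝ} (hx : 0 < x) (hxy : x ≤ y) (hy : y ≤ 2 * x) :
    2 ^ (-|q|) * x ^ q ≤ y ^ q ∧ y ^ q ≤ 2 ^ |q| * x ^ q := by
  have hy0 : 0 < y := hx.trans_le hxy
  rcases le_total 0 q with h | h
  · rw [abs_of_nonneg h]
    have h1 : x ^ q ≤ y ^ q := Real.rpow_le_rpow hx.le hxy h
    have h2 : y ^ q ≤ (2 * x) ^ q := Real.rpow_le_rpow hy0.le hy h
    rw [Real.mul_rpow (by norm_num) hx.le] at h2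
    refine ⟨?_, h2⟩
    have h3 : (2 : ℝ) ^ (-q) ≤ 1 := Real.rpow_le_one_of_one_le_of_nonpos (by norm_num) (by linarith)
    have h4 : 0 ≤ x ^ q := Real.rpow_nonneg hx.le _
    nlinarith
  · rw [abs_of_nonpos h, neg_neg]
    have h1 : y ^ q ≤ x ^ q := Real.rpow_le_rpow_of_nonpos hx hxy h
    have h2 : (2 * x) ^ q ≤ y ^ q := Real.rpow_le_rpow_of_nonpos hy0 hy h
    rw [Real.mul_rpow (by norm_num) hx.le] at h2
    refine ⟨h2, ?_⟩
    have h3 : (1 : ℝ) ≤ 2 ^ (-q) := Real.one_le_rpow (by norm_num) (by linarith)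
    have h4 : 0 ≤ x ^ q := Real.rpow_nonneg hx.le _
    nlinarith

/-- sums of powers -/
lemma sum_pow {q : ℝ} (hq : 0 < q) : ∃ c C : ℝ, 0 < c ∧ 0 < C ∧ ∀ᶠ K : ℕ in atTop,
    c * (K : ℝ) ^ q ≤ ∑ k ∈ Finset.Ico 1 K, (k : ℝ) ^ (q - 1) ∧
      ∑ k ∈ Finset.Ico 1 K, (k : ℝ) ^ (q - 1) ≤ C * (K : ℝ) ^ q := by
  set b : ℝ := 2 ^ |q - 1| with hb
  have hb0 : 0 < b := by positivity
  have hb' : (2 : ℝ) ^ (-|q - 1|) = b⁻¹ := by rw [Real.rpow_neg (by norm_num)]
  have key : ∀ K : ℕ, 1 ≤ K → b⁻¹ * ∑ k ∈ Finset.Ico 1 K, (k : ℝ) ^ (q - 1) ≤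
      (K : ℝ) ^ q / q - 1 / q ∧ (K : ℝ) ^ q / q - 1 / q ≤ b * ∑ k ∈ Finset.Ico 1 K, (k : ℝ) ^ (q - 1) := by
    intro K hK
    have h := mv (F := fun x => x ^ q / q) (f := fun x => x ^ (q - 1)) (a := 1) (c := b⁻¹) (C := b)
      (fun x hx => by
        have hx0 : x ≠ 0 := by
          rw [Nat.cast_one] at hx
          linarith
        have := (Real.hasDerivAt_rpow_const (p := q) (Or.inl hx0)).div_const q
        rwa [mul_div_cancel_left₀ _ hq.ne'] at this)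
      (fun k hk x h1 h2 => by
        have hk' : (1 : ℝ) ≤ k := by exact_mod_cast hk
        have := rpow_ratio (q := q - 1) (show (0 : ℝ) < k by linarith) h1 (by linarith)
        rwa [hb'] at this) K hK
    simpa using h
  refine ⟨(b * q)⁻¹ / 2, b / q, by positivity, by positivity, ?_⟩
  have ht : Tendsto (fun K : ℕ => (K : ℝ) ^ q) atTop atTop :=
    (tendsto_rpow_atTop hq).comp tendsto_natCast_atTop_atTop
  filter_upwards [eventually_ge_atTop 1, ht.eventually_ge_atTop 2] with K hK h2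
  obtain ⟨h3, h4⟩ := key K hK
  constructor
  · rw [← sub_div, div_le_iff₀ hq] at h4
    have h5 : (K : ℝ) ^ q / 2 ≤ (K : ℝ) ^ q - 1 := by linarith
    have h6 : (b * q)⁻¹ / 2 * (K : ℝ) ^ q = (b * q)⁻¹ * ((K : ℝ) ^ q / 2) := by ring
    rw [h6, inv_mul_le_iff₀ (by positivity)]
    calc (K : ℝ) ^ q / 2 ≤ (K : ℝ) ^ q - 1 := h5
      _ ≤ _ := h4
      _ = _ := by ring
  · have h5 : 0 < 1 / q := by positivity
    have h6 : b⁻¹ * ∑ k ∈ Finset.Ico 1 K, (k : ℝ) ^ (q - 1) ≤ (K : ℝ) ^ q / q := by linarith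
    rw [inv_mul_le_iff₀ hb0] at h6
    calc _ ≤ _ := h6
      _ = _ := by ring

lemma log_deriv {q x : ℝ} (hq : q ≠ 0) (hx : 1 < x) :
    HasDerivAt (fun x => Real.log x ^ q / q) (Real.log x ^ (q - 1) / x) x := by
  have hx0 : x ≠ 0 := by linarith
  have hL : Real.log x ≠ 0 := (Real.log_pos hx).ne'
  have h1 := ((Real.hasDerivAt_log hx0).rpow_const (p := q) (Or.inl hL)).div_const q
  have h2 : x⁻¹ * q * Real.log x ^ (q - 1) / q = Real.log x ^ (q - 1) / x := by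
    field_simp
  rwa [h2] at h1

lemma log_ratio {q : ℝ} {k : ℕ} (hk : 2 ≤ k) {x : ℝ} (h1 : (k : ℝ) ≤ x) (h2 : x ≤ k + 1) :
    (2 ^ (|q| + 1))⁻¹ * (Real.log k ^ q / k) ≤ Real.log x ^ q / x ∧
      Real.log x ^ q / x ≤ 2 ^ (|q| + 1) * (Real.log k ^ q / k) := by
  have hk' : (2 : ℝ) ≤ k := by exact_mod_cast hk
  have hx0 : 0 < x := by linarith
  have hL : 0 < Real.log k := Real.log_pos (by linarith)
  have hLx : Real.log k ≤ Real.log x := Real.log_le_log (by linarith) h1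
  have hLx2 : Real.log x ≤ 2 * Real.log k := by
    rw [← Real.log_rpow (by linarith) 2, Real.rpow_two]
    exact Real.log_le_log hx0 (by nlinarith)
  obtain ⟨h3, h4⟩ := rpow_ratio (q := q) hL hLx hLx2
  have h5 : (2 : ℝ) ^ (|q| + 1) = 2 ^ |q| * 2 := by rw [Real.rpow_add (by norm_num), Real.rpow_one]
  rw [Real.rpow_neg (by norm_num)] at h3
  have hb : (0 : ℝ) < 2 ^ |q| := by positivity
  have hp : 0 < Real.log k ^ q := Real.rpow_pos_of_pos hL q
  constructor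
  · rw [h5, le_div_iff₀ hx0]
    calc (2 ^ |q| * 2)⁻¹ * (Real.log k ^ q / k) * x = ((2 ^ |q|)⁻¹ * Real.log k ^ q) * (x / (2 * k)) := by
          field_simp
      _ ≤ ((2 ^ |q|)⁻¹ * Real.log k ^ q) * 1 := by
          refine mul_le_mul_of_nonneg_left ?_ (by positivity)
          rw [div_le_one (by positivity)]
          linarith
      _ ≤ _ := by rw [mul_one]; exact h3
  · rw [h5, div_le_iff₀ hx0]
    calc Real.log x ^ q ≤ 2 ^ |q| * Real.log k ^ q := h4
      _ ≤ (2 ^ |q| * Real.log k ^ q) * (2 * x / k) := by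
          refine le_mul_of_one_le_right (by positivity) ?_
          rw [le_div_iff₀ (by linarith)]
          linarith
      _ = _ := by field_simp

/-- sums of powers of logarithms -/
lemma sum_log {q : ℝ} (hq : 0 < q) : ∃ c C : ℝ, 0 < c ∧ 0 < C ∧ ∀ᶠ K : ℕ in atTop,
    c * Real.log K ^ q ≤ ∑ k ∈ Finset.Ico 2 K, Real.log k ^ (q - 1) / k ∧
      ∑ k ∈ Finset.Ico 2 K, Real.log k ^ (q - 1) / k ≤ C * Real.log K ^ q := by
  set b : ℝ := 2 ^ (|q - 1| + 1) with hb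
  have hb0 : 0 < b := by positivity
  have hl2 : 0 < Real.log 2 := Real.log_pos (by norm_num)
  have key : ∀ K : ℕ, 2 ≤ K → b⁻¹ * ∑ k ∈ Finset.Ico 2 K, Real.log k ^ (q - 1) / k ≤
      Real.log K ^ q / q - Real.log 2 ^ q / q ∧ Real.log K ^ q / q - Real.log 2 ^ q / q ≤
        b * ∑ k ∈ Finset.Ico 2 K, Real.log k ^ (q - 1) / k := by
    intro K hK
    have h := mv (F := fun x => Real.log x ^ q / q) (f := fun x => Real.log x ^ (q - 1) / x) (a := 2)
      (c := b⁻¹) (C := b) (fun x hx => log_deriv hq.ne' (by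
        have : (2 : ℝ) ≤ x := by exact_mod_cast hx
        linarith)) (fun k hk x h1 h2 => log_ratio hk h1 h2) K hK
    simpa using h
  have ht : Tendsto (fun K : ℕ => Real.log K ^ q) atTop atTop :=
    (tendsto_rpow_atTop hq).comp (Real.tendsto_log_atTop.comp tendsto_natCast_atTop_atTop)
  refine ⟨(b * q)⁻¹ / 2, b / q, by positivity, by positivity, ?_⟩
  filter_upwards [eventually_ge_atTop 2, ht.eventually_ge_atTop (2 * Real.log 2 ^ q)] with K hK h2
  obtain ⟨h3, h4⟩ := key K hK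
  constructor
  · rw [← sub_div, div_le_iff₀ hq] at h4
    have h6 : (b * q)⁻¹ / 2 * Real.log K ^ q = (b * q)⁻¹ * (Real.log K ^ q / 2) := by ring
    rw [h6, inv_mul_le_iff₀ (by positivity)]
    calc Real.log K ^ q / 2 ≤ Real.log K ^ q - Real.log 2 ^ q := by linarith
      _ ≤ _ := h4
      _ = _ := by ring
  · have h5 : 0 < Real.log 2 ^ q / q := by positivity
    have h6 : b⁻¹ * ∑ k ∈ Finset.Ico 2 K, Real.log k ^ (q - 1) / k ≤ Real.log K ^ q / q := by linarith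
    rw [inv_mul_le_iff₀ hb0] at h6
    calc _ ≤ _ := h6
      _ = _ := by ring

lemma summable_log {q : ℝ} (hq : q < 0) : Summable (fun k : ℕ => Real.log k ^ (q - 1) / k) := by
  have hl2 : 0 < Real.log 2 := Real.log_pos (by norm_num)
  set b : ℝ := 2 ^ (|q - 1| + 1) with hb
  have hb0 : 0 < b := by positivity
  have h0 : ∀ k : ℕ, 0 ≤ Real.log k ^ (q - 1) / k := fun k =>
    div_nonneg (Real.rpow_nonneg (Real.log_natCast_nonneg k) _) (Nat.cast_nonneg k)
  rw [← summable_nat_add_iff 2]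
  refine summable_of_sum_range_le (c := b * (-(Real.log 2 ^ q / q))) (fun k => h0 _) fun K => ?_
  have h := mv (F := fun x => Real.log x ^ q / q) (f := fun x => Real.log x ^ (q - 1) / x) (a := 2)
    (c := b⁻¹) (C := b) (fun x hx => log_deriv hq.ne (by
      have : (2 : ℝ) ≤ x := by exact_mod_cast hx
      linarith)) (fun k hk x h1 h2 => log_ratio hk h1 h2) (K + 2) (by omega)
  have h1 := h.1
  rw [Finset.sum_Ico_eq_sum_range] at h1
  simp only [Nat.add_sub_cancel] at h1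
  have h2 : Real.log ((K + 2 : ℕ) : ℝ) ^ q / q ≤ 0 :=
    div_nonpos_of_nonneg_of_nonpos (Real.rpow_nonneg (Real.log_natCast_nonneg _) _) hq.le
  rw [inv_mul_le_iff₀ hb0] at h1
  have h3 : ∑ k ∈ Finset.range K, Real.log ((k + 2 : ℕ) : ℝ) ^ (q - 1) / ((k + 2 : ℕ) : ℝ) =
      ∑ k ∈ Finset.range K, Real.log ((2 + k : ℕ) : ℝ) ^ (q - 1) / ((2 + k : ℕ) : ℝ) := by
    refine Finset.sum_congr rfl fun k _ => ?_
    rw [add_comm k 2]
  rw [h3]
  refine h1.trans (mul_le_mul_of_nonneg_left ?_ hb0.le)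
  have h4 : (((2 : ℕ) : ℝ)) = 2 := by norm_num
  simp only [h4]
  linarith

end Pool.Agent.N634.OS
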