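import Mathlib
import Pool.Agent.R528.RM.Blocks

/-!
# Adapted random sets: conditional bounds for the number of chosen integers in a block
-/

set_option autoImplicit false
set_option linter.unusedSectionVars false

open MeasureTheory Filter Set
open scoped ENNReal Topology

namespace Pool.Agent.N634.OS

open Pool.Agent.R528.RM

variable {Ω : Type} {m0 : MeasurableSpace Ω} {μ : Measure Ω} [IsProbabilityMeasure μ]
  {ℱ : Filtration ℕ m0} {A : ℕ → Set Ω}

/-- exactly `r` of the integers `t + 1, ..., t + j` are chosen, and no violation occurs -/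
def EX (A V : ℕ → Set Ω) (t : ℕ) (r j : ℕ) : Set Ω := {ω | cnt A t j ω = r} \ WV V t j

open Classical in
lemma cnt_last (t j : ℕ) (ω : Ω) :
    cnt A t (j + 1) ω = cnt A t j ω + if ω ∈ A (t + j + 1) then 1 else 0 := by
  unfold cnt
  rw [Finset.sum_range_succ, show t + 1 + j = t + j + 1 by ring]

lemma cnt_meas (hA : ∀ n, MeasurableSet[ℱ n] (A n)) (t j : ℕ) : Measurable[ℱ (t + j)] (cnt A t j) := by
  classical
  induction j with
  | zero =>
    have : cnt A t 0 = fun _ => 0 := by funext ω; simp [cnt]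
    rw [this]; exact measurable_const
  | succ j ih =>
    have e : cnt A t (j + 1) = fun ω => cnt A t j ω + (A (t + j + 1)).indicator (fun _ => 1) ω := by
      funext ω
      rw [cnt_last]
      by_cases h : ω ∈ A (t + j + 1)
      · rw [if_pos h, indicator_of_mem h]
      · rw [if_neg h, indicator_of_notMem h]
    rw [e]
    have h1 : Measurable[ℱ (t + (j + 1))] (cnt A t j) := ih.mono (ℱ.mono (by omega)) le_rfl
    have h2 : Measurable[ℱ (t + (j + 1))] ((A (t + j + 1)).indicator (fun _ : Ω => (1 : ℕ))) :=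
      (@measurable_const _ _ _ (ℱ (t + (j + 1))) (1 : ℕ)).indicator (hA (t + j + 1))
    exact h1.add h2

lemma WV_meas' {V : ℕ → Set Ω} (hV : ∀ n, MeasurableSet[ℱ n] (V n)) (t j : ℕ) :
    MeasurableSet[ℱ (t + j)] (WV V t j) := by
  have e : WV V t j = ⋃ n ∈ Finset.Ico t (t + j), V n := by
    ext ω
    simp only [WV, mem_ofPred_eq, mem_iUnion, Finset.mem_Ico, exists_prop]
    constructor
    · rintro ⟨n, h1, h2, h3⟩; exact ⟨n, ⟨h1, h2⟩, h3⟩
    · rintro ⟨n, ⟨h1, h2⟩, h3⟩; exact ⟨n, h1, h2, h3⟩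
  rw [e]
  refine Finset.measurableSet_biUnion _ fun n hn => ?_
  exact ℱ.mono (Finset.mem_Ico.1 hn).2.le _ (hV n)

lemma EX_meas (hA : ∀ n, MeasurableSet[ℱ n] (A n)) {V : ℕ → Set Ω}
    (hV : ∀ n, MeasurableSet[ℱ n] (V n)) (t r j : ℕ) : MeasurableSet[ℱ (t + j)] (EX A V t r j) := by
  have h1 : MeasurableSet[ℱ (t + j)] {ω | cnt A t j ω = r} :=
    (cnt_meas hA t j) (measurableSet_singleton r)
  exact MeasurableSet.diff h1 (WV_meas' hV t j)

lemma WV_succ (V : ℕ → Set Ω) (t j : ℕ) : WV V t (j + 1) = WV V t j ∪ V (t + j) := by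
  ext ω
  simp only [WV, mem_ofPred_eq, mem_union]
  constructor
  · rintro ⟨n, h1, h2, h3⟩
    rcases Nat.lt_or_ge n (t + j) with h | h
    · exact Or.inl ⟨n, h1, h, h3⟩
    · have : n = t + j := by omega
      subst this
      exact Or.inr h3
  · rintro (⟨n, h1, h2, h3⟩ | h)
    · exact ⟨n, h1, by omega, h3⟩
    · exact ⟨t + j, by omega, by omega, h⟩

/-- decomposition according to the last integer of the block -/
lemma EX_zero_succ (V : ℕ → Set Ω) (t j : ℕ) :
    EX A V t 0 (j + 1) = (EX A V t 0 j \ V (t + j)) \ A (t + j + 1) := by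
  classical
  ext ω
  simp only [EX, Set.mem_sdiff, mem_ofPred_eq, WV_succ, mem_union, not_or]
  rw [cnt_last]
  by_cases h : ω ∈ A (t + j + 1)
  · simp [h]
  · simp only [h, if_false, add_zero, not_false_iff, and_true]
    tauto

lemma EX_succ_succ (V : ℕ → Set Ω) (t r j : ℕ) :
    EX A V t (r + 1) (j + 1) = ((EX A V t r j \ V (t + j)) ∩ A (t + j + 1)) ∪
      ((EX A V t (r + 1) j \ V (t + j)) \ A (t + j + 1)) := by
  classical
  ext ω
  simp only [EX, Set.mem_sdiff, mem_ofPred_eq, WV_succ, mem_union, not_or, mem_inter_iff]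
  rw [cnt_last]
  by_cases h : ω ∈ A (t + j + 1)
  · simp only [h, if_true, not_true, and_false, or_false, and_true, Nat.add_right_cancel_iff]
    tauto
  · simp only [h, if_false, add_zero, not_false_iff, and_true, and_false, false_or]
    tauto

/-- **upper bound** -/
theorem EX_upper (hA : ∀ n, MeasurableSet[ℱ n] (A n)) {V : ℕ → Set Ω}
    (hV : ∀ n, MeasurableSet[ℱ n] (V n)) {l u : ℝ} (hl1 : l ≤ 1) (hu0 : 0 ≤ u) (t : ℕ)
    {C : Set Ω} (hC : MeasurableSet[ℱ t] C) (j : ℕ)
    (hlu : ∀ n, t ≤ n → n < t + j → ∀ ω, ω ∉ V n → l ≤ dens μ ℱ A n ω ∧ dens μ ℱ A n ω ≤ u) (r : ℕ) :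
    μ.real (C ∩ EX A V t r j) ≤ (j.choose r) * u ^ r * (1 - l) ^ (j - r) * μ.real C := by
  have hl : 0 ≤ 1 - l := by linarith
  have hm : 0 ≤ μ.real C := measureReal_nonneg
  induction j generalizing r with
  | zero =>
    cases r with
    | zero =>
      simp only [Nat.choose_self, Nat.cast_one, pow_zero, one_mul, Nat.sub_zero]
      exact measureReal_mono inter_subset_left
    | succ r =>
      have : EX A V t (r + 1) 0 = ∅ := by
        ext ω
        simp [EX, cnt]
      rw [this, inter_empty, measureReal_empty, Nat.choose_zero_succ]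
      simp
  | succ j ih =>
    have ih := fun r => ih (fun n h1 h2 => hlu n h1 (by omega)) r
    have hC' : MeasurableSet[ℱ (t + j)] C := ℱ.mono (by omega) _ hC
    have key : ∀ r, μ.real ((C ∩ (EX A V t r j \ V (t + j))) \ A (t + j + 1)) ≤
        (1 - l) * μ.real (C ∩ EX A V t r j) := by
      intro r
      have hB : MeasurableSet[ℱ (t + j)] (C ∩ (EX A V t r j \ V (t + j))) :=
        hC'.inter ((EX_meas hA hV t r j).diff (hV _))
      have h1 := lower_meas (μ := μ) hA (t + j) hB (l := l)
        (fun ω hω => (hlu (t + j) (by omega) (by omega) ω hω.2.2).1)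
      have hA' : MeasurableSet (A (t + j + 1)) := ℱ.le _ _ (hA _)
      have h2 := measureReal_inter_add_sdiff (μ := μ) (s := C ∩ (EX A V t r j \ V (t + j))) hA'
      have h3 : μ.real (C ∩ (EX A V t r j \ V (t + j))) ≤ μ.real (C ∩ EX A V t r j) :=
        measureReal_mono (inter_subset_inter_right _ sdiff_subset)
      have h4 := mul_le_mul_of_nonneg_left h3 hl
      linarith
    have key2 : ∀ r, μ.real ((C ∩ (EX A V t r j \ V (t + j))) ∩ A (t + j + 1)) ≤
        u * μ.real (C ∩ EX A V t r j) := by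
      intro r
      have hB : MeasurableSet[ℱ (t + j)] (C ∩ (EX A V t r j \ V (t + j))) :=
        hC'.inter ((EX_meas hA hV t r j).diff (hV _))
      have h1 := upper_meas (μ := μ) hA (t + j) hB (u := u)
        (fun ω hω => (hlu (t + j) (by omega) (by omega) ω hω.2.2).2)
      have h3 : μ.real (C ∩ (EX A V t r j \ V (t + j))) ≤ μ.real (C ∩ EX A V t r j) :=
        measureReal_mono (inter_subset_inter_right _ sdiff_subset)
      exact h1.trans (mul_le_mul_of_nonneg_left h3 hu0)
    cases r with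
    | zero =>
      have e1 : C ∩ EX A V t 0 (j + 1) = (C ∩ (EX A V t 0 j \ V (t + j))) \ A (t + j + 1) := by
        rw [EX_zero_succ, inter_sdiff_assoc]
      rw [e1]
      refine (key 0).trans ?_
      have h5 := mul_le_mul_of_nonneg_left (ih 0) hl
      simp only [Nat.choose_zero_right, Nat.cast_one, pow_zero, one_mul, Nat.sub_zero] at h5 ⊢
      rw [pow_succ]
      linarith
    | succ r =>
      have e1 : C ∩ EX A V t (r + 1) (j + 1) = ((C ∩ (EX A V t r j \ V (t + j))) ∩ A (t + j + 1)) ∪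
          ((C ∩ (EX A V t (r + 1) j \ V (t + j))) \ A (t + j + 1)) := by
        rw [EX_succ_succ, inter_union_distrib_left, inter_assoc, inter_sdiff_assoc]
      rw [e1]
      refine (measureReal_union_le _ _).trans ?_
      have h5 := mul_le_mul_of_nonneg_left (ih r) hu0
      have h6 := mul_le_mul_of_nonneg_left (ih (r + 1)) hl
      have h7 : u * ((j.choose r) * u ^ r * (1 - l) ^ (j - r) * μ.real C) +
          (1 - l) * ((j.choose (r + 1)) * u ^ (r + 1) * (1 - l) ^ (j - (r + 1)) * μ.real C) =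
          (((j + 1).choose (r + 1) : ℕ) : ℝ) * u ^ (r + 1) * (1 - l) ^ (j + 1 - (r + 1)) * μ.real C := by
        rw [Nat.choose_succ_succ, Nat.cast_add, Nat.add_sub_add_right]
        rcases Nat.lt_or_ge r j with h | h
        · have e2 : j - r = (j - (r + 1)) + 1 := by omega
          rw [e2, pow_succ]
          ring
        · rw [Nat.choose_eq_zero_of_lt (show j < r + 1 by omega)]
          simp only [Nat.cast_zero, zero_mul, mul_zero, add_zero]
          ring
      rw [← h7]
      linarith [key (r + 1), key2 r]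

/-- **lower bound** -/
theorem EX_lower (hA : ∀ n, MeasurableSet[ℱ n] (A n)) {V : ℕ → Set Ω}
    (hV : ∀ n, MeasurableSet[ℱ n] (V n)) {l u : ℝ} (hl0 : 0 ≤ l) (hlu' : l ≤ u) (hu1 : u ≤ 1) (t : ℕ)
    {C : Set Ω} (hC : MeasurableSet[ℱ t] C) (j : ℕ)
    (hlu : ∀ n, t ≤ n → n < t + j → ∀ ω, ω ∉ V n → l ≤ dens μ ℱ A n ω ∧ dens μ ℱ A n ω ≤ u) (r : ℕ) :
    (j.choose r) * l ^ r * (1 - u) ^ (j - r) * μ.real C ≤
      μ.real (C ∩ EX A V t r j) + μ.real (C ∩ WV V t j) := by
  have hu : 0 ≤ 1 - u := by linarith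
  have hm : 0 ≤ μ.real C := measureReal_nonneg
  induction j generalizing r with
  | zero =>
    cases r with
    | zero =>
      have e1 : EX A V t 0 0 = univ := by
        ext ω
        simp only [EX, Set.mem_sdiff, mem_ofPred_eq, WV, mem_univ, iff_true]
        refine ⟨by simp [cnt], ?_⟩
        rintro ⟨n, h1, h2, -⟩
        omega
      rw [e1, inter_univ]
      simp only [Nat.choose_self, Nat.cast_one, pow_zero, one_mul, Nat.sub_zero]
      linarith [measureReal_nonneg (μ := μ) (s := C ∩ WV V t 0)]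
    | succ r =>
      rw [Nat.choose_zero_succ]
      simp only [Nat.cast_zero, zero_mul]
      exact add_nonneg measureReal_nonneg measureReal_nonneg
  | succ j ih =>
    have ih := fun r => ih (fun n h1 h2 => hlu n h1 (by omega)) r
    have hC' : MeasurableSet[ℱ (t + j)] C := ℱ.mono (by omega) _ hC
    have hCm : MeasurableSet C := ℱ.le _ _ hC
    have hVm : MeasurableSet (V (t + j)) := ℱ.le _ _ (hV _)
    have hWm : MeasurableSet (WV V t j) := ℱ.le _ _ (WV_meas' hV t j)
    have hA' : MeasurableSet (A (t + j + 1)) := ℱ.le _ _ (hA _)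
    have hEm : ∀ r, MeasurableSet (EX A V t r j) := fun r => ℱ.le _ _ (EX_meas hA hV t r j)
    -- the new violations
    have hw : μ.real (C ∩ WV V t (j + 1)) = μ.real (C ∩ WV V t j) + μ.real ((C ∩ V (t + j)) \ WV V t j) := by
      rw [WV_succ, ← measureReal_inter_add_sdiff (μ := μ) (s := C ∩ (WV V t j ∪ V (t + j))) hWm]
      congr 2
      · ext ω; simp only [mem_inter_iff, mem_union]; tauto
      · ext ω; simp only [mem_inter_iff, mem_union, Set.mem_sdiff]; tauto
    have key : ∀ r, (1 - u) * μ.real (C ∩ (EX A V t r j \ V (t + j))) ≤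
        μ.real ((C ∩ (EX A V t r j \ V (t + j))) \ A (t + j + 1)) := by
      intro r
      have hB : MeasurableSet[ℱ (t + j)] (C ∩ (EX A V t r j \ V (t + j))) :=
        hC'.inter ((EX_meas hA hV t r j).diff (hV _))
      have h1 := upper_meas (μ := μ) hA (t + j) hB (u := u)
        (fun ω hω => (hlu (t + j) (by omega) (by omega) ω hω.2.2).2)
      have h2 := measureReal_inter_add_sdiff (μ := μ) (s := C ∩ (EX A V t r j \ V (t + j))) hA'
      linarith
    have key2 : ∀ r, l * μ.real (C ∩ (EX A V t r j \ V (t + j))) ≤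
        μ.real ((C ∩ (EX A V t r j \ V (t + j))) ∩ A (t + j + 1)) := by
      intro r
      have hB : MeasurableSet[ℱ (t + j)] (C ∩ (EX A V t r j \ V (t + j))) :=
        hC'.inter ((EX_meas hA hV t r j).diff (hV _))
      exact lower_meas (μ := μ) hA (t + j) hB (l := l)
        (fun ω hω => (hlu (t + j) (by omega) (by omega) ω hω.2.2).1)
    have hsplit : ∀ r, μ.real (C ∩ EX A V t r j) = μ.real (C ∩ (EX A V t r j ∩ V (t + j))) +
        μ.real (C ∩ (EX A V t r j \ V (t + j))) := by
      intro r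
      rw [← measureReal_inter_add_sdiff (μ := μ) (s := C ∩ EX A V t r j) hVm, inter_assoc, inter_sdiff_assoc]
    cases r with
    | zero =>
      have e1 : C ∩ EX A V t 0 (j + 1) = (C ∩ (EX A V t 0 j \ V (t + j))) \ A (t + j + 1) := by
        rw [EX_zero_succ, inter_sdiff_assoc]
      have h3 : μ.real (C ∩ (EX A V t 0 j ∩ V (t + j))) ≤ μ.real ((C ∩ V (t + j)) \ WV V t j) :=
        measureReal_mono fun ω hω => ⟨⟨hω.1, hω.2.2⟩, hω.2.1.2⟩
      rw [e1, hw]
      have h4 := mul_le_mul_of_nonneg_left (ih 0) hu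
      have h5 := key 0
      have h6 := hsplit 0
      have h7 : 0 ≤ μ.real (C ∩ (EX A V t 0 j ∩ V (t + j))) := measureReal_nonneg
      have h8 : 0 ≤ μ.real (C ∩ WV V t j) := measureReal_nonneg
      have hu0 : 0 ≤ u := hl0.trans hlu'
      simp only [Nat.choose_zero_right, Nat.cast_one, pow_zero, one_mul, Nat.sub_zero] at h4 ⊢
      rw [pow_succ]
      nlinarith [mul_nonneg hu0 h7, mul_nonneg hu0 h8]
    | succ r =>
      have e1 : C ∩ EX A V t (r + 1) (j + 1) = ((C ∩ (EX A V t r j \ V (t + j))) ∩ A (t + j + 1)) ∪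
          ((C ∩ (EX A V t (r + 1) j \ V (t + j))) \ A (t + j + 1)) := by
        rw [EX_succ_succ, inter_union_distrib_left, inter_assoc, inter_sdiff_assoc]
      have hdisj : Disjoint ((C ∩ (EX A V t r j \ V (t + j))) ∩ A (t + j + 1))
          ((C ∩ (EX A V t (r + 1) j \ V (t + j))) \ A (t + j + 1)) := by
        rw [Set.disjoint_left]
        rintro ω ⟨-, h1⟩ ⟨-, h2⟩
        exact h2 h1
      have e2 : μ.real (C ∩ EX A V t (r + 1) (j + 1)) =
          μ.real ((C ∩ (EX A V t r j \ V (t + j))) ∩ A (t + j + 1)) +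
          μ.real ((C ∩ (EX A V t (r + 1) j \ V (t + j))) \ A (t + j + 1)) := by
        rw [e1, measureReal_union hdisj ((hCm.inter ((hEm _).diff hVm)).diff hA')]
      have h3 : μ.real (C ∩ (EX A V t r j ∩ V (t + j))) + μ.real (C ∩ (EX A V t (r + 1) j ∩ V (t + j))) ≤
          μ.real ((C ∩ V (t + j)) \ WV V t j) := by
        rw [← measureReal_union (by
          rw [Set.disjoint_left]
          rintro ω ⟨-, h1, -⟩ ⟨-, h2, -⟩
          have h1' : cnt A t j ω = r := h1.1
          have h2' : cnt A t j ω = r + 1 := h2.1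
          omega) (hCm.inter ((hEm _).inter hVm))]
        refine measureReal_mono ?_
        rintro ω (hω | hω)
        · exact ⟨⟨hω.1, hω.2.2⟩, hω.2.1.2⟩
        · exact ⟨⟨hω.1, hω.2.2⟩, hω.2.1.2⟩
      rw [e2, hw]
      have h4 := mul_le_mul_of_nonneg_left (ih (r + 1)) hu
      have h4' := mul_le_mul_of_nonneg_left (ih r) hl0
      have h5 := key (r + 1)
      have h5' := key2 r
      have h6 := hsplit (r + 1)
      have h6' := hsplit r
      have h7 : 0 ≤ μ.real (C ∩ (EX A V t (r + 1) j ∩ V (t + j))) := measureReal_nonneg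
      have h7' : 0 ≤ μ.real (C ∩ (EX A V t r j ∩ V (t + j))) := measureReal_nonneg
      have h8 : 0 ≤ μ.real (C ∩ WV V t j) := measureReal_nonneg
      have hu0 : 0 ≤ u := hl0.trans hlu'
      have h9 : l * ((j.choose r) * l ^ r * (1 - u) ^ (j - r) * μ.real C) +
          (1 - u) * ((j.choose (r + 1)) * l ^ (r + 1) * (1 - u) ^ (j - (r + 1)) * μ.real C) =
          (((j + 1).choose (r + 1) : ℕ) : ℝ) * l ^ (r + 1) * (1 - u) ^ (j + 1 - (r + 1)) * μ.real C := by
        rw [Nat.choose_succ_succ, Nat.cast_add, Nat.add_sub_add_right]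
        rcases Nat.lt_or_ge r j with h | h
        · have e2 : j - r = (j - (r + 1)) + 1 := by omega
          rw [e2, pow_succ]
          ring
        · rw [Nat.choose_eq_zero_of_lt (show j < r + 1 by omega)]
          simp only [Nat.cast_zero, zero_mul, mul_zero, add_zero]
          ring
      rw [← h9]
      have g1 : l * μ.real (C ∩ (EX A V t r j ∩ V (t + j))) ≤ μ.real (C ∩ (EX A V t r j ∩ V (t + j))) := by
        nlinarith
      have g2 : (1 - u) * μ.real (C ∩ (EX A V t (r + 1) j ∩ V (t + j))) ≤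
          μ.real (C ∩ (EX A V t (r + 1) j ∩ V (t + j))) := by
        nlinarith [mul_nonneg hu0 h7]
      have g3 : (l + (1 - u)) * μ.real (C ∩ WV V t j) ≤ μ.real (C ∩ WV V t j) := by
        nlinarith
      rw [h6, mul_add, mul_add] at h4
      rw [h6', mul_add, mul_add] at h4'
      rw [add_mul] at g3
      linarith

end Pool.Agent.N634.OS
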