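import Mathlib
import Pool.Agent.N634.OS.Blk
import Pool.Agent.N740.HK.Levy

/-!
# Adapted random sets: the number of blocks with a given number of chosen integers
-/

set_option autoImplicit false
set_option linter.unusedSectionVars false

open MeasureTheory Filter Set
open scoped ENNReal Topology

namespace Pool.Agent.N634.OS

open Pool.Agent.R528.RM Pool.Agent.N740.HK

variable {Ω : Type} {m0 : MeasurableSpace Ω} {μ : Measure Ω} [IsProbabilityMeasure μ]
  {ℱ : Filtration ℕ m0} {A : ℕ → Set Ω}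

lemma dens_le_of {B : ℕ → Set Ω} (hB : ∀ n, MeasurableSet[ℱ n] (B n)) {k : ℕ} {b : ℝ}
    (h : ∀ C, MeasurableSet[ℱ k] C → μ.real (C ∩ B (k + 1)) ≤ b * μ.real C) :
    ∀ᵐ ω ∂μ, dens μ ℱ B k ω ≤ b := by
  have hm : ∀ m : ℕ, μ.real {ω | b + 1 / ((m : ℝ) + 1) ≤ dens μ ℱ B k ω} = 0 := by
    intro m
    have hC : MeasurableSet[ℱ k] {ω | b + 1 / ((m : ℝ) + 1) ≤ dens μ ℱ B k ω} :=
      (dens_meas k).measurable measurableSet_Ici
    have h1 := lower_meas (μ := μ) hB k hC (l := b + 1 / ((m : ℝ) + 1)) (fun ω hω => hω)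
    have h2 := h _ hC
    have h3 : (0 : ℝ) < 1 / ((m : ℝ) + 1) := by positivity
    have h4 : 0 ≤ μ.real {ω | b + 1 / ((m : ℝ) + 1) ≤ dens μ ℱ B k ω} := measureReal_nonneg
    nlinarith
  have h5 : ∀ᵐ ω ∂μ, ∀ m : ℕ, ¬ (b + 1 / ((m : ℝ) + 1) ≤ dens μ ℱ B k ω) := by
    rw [ae_all_iff]
    intro m
    rw [ae_iff]
    simp only [not_not]
    exact (measureReal_eq_zero_iff (by finiteness)).1 (hm m)
  filter_upwards [h5] with ω hω
  by_contra hcon
  push Not at hcon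
  obtain ⟨m, hm⟩ := exists_nat_one_div_lt (sub_pos.2 hcon)
  exact hω m (by linarith)

lemma dens_ge_of {B W : ℕ → Set Ω} (hB : ∀ n, MeasurableSet[ℱ n] (B n))
    (hW : ∀ n, MeasurableSet[ℱ n] (W n)) {k : ℕ} {a : ℝ}
    (h : ∀ C, MeasurableSet[ℱ k] C → a * μ.real C ≤ μ.real (C ∩ B (k + 1)) + μ.real (C ∩ W (k + 1))) :
    ∀ᵐ ω ∂μ, a ≤ dens μ ℱ B k ω + dens μ ℱ W k ω := by
  have hm : ∀ m : ℕ, μ.real {ω | dens μ ℱ B k ω + dens μ ℱ W k ω ≤ a - 1 / ((m : ℝ) + 1)} = 0 := by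
    intro m
    have hC : MeasurableSet[ℱ k] {ω | dens μ ℱ B k ω + dens μ ℱ W k ω ≤ a - 1 / ((m : ℝ) + 1)} :=
      ((dens_meas k).measurable.add (dens_meas k).measurable) measurableSet_Iic
    have h1 : ∫ ω in {ω | dens μ ℱ B k ω + dens μ ℱ W k ω ≤ a - 1 / ((m : ℝ) + 1)},
        (dens μ ℱ B k ω + dens μ ℱ W k ω) ∂μ ≤
        ∫ ω in {ω | dens μ ℱ B k ω + dens μ ℱ W k ω ≤ a - 1 / ((m : ℝ) + 1)}, (a - 1 / ((m : ℝ) + 1)) ∂μ :=
      setIntegral_mono_on (integrable_condExp.integrableOn.add integrable_condExp.integrableOn)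
        (integrable_const _).integrableOn (ℱ.le k _ hC) (fun ω hω => hω)
    have h0 : ∫ ω in {ω | dens μ ℱ B k ω + dens μ ℱ W k ω ≤ a - 1 / ((m : ℝ) + 1)},
        (dens μ ℱ B k ω + dens μ ℱ W k ω) ∂μ = _ :=
      integral_add (μ := μ.restrict {ω | dens μ ℱ B k ω + dens μ ℱ W k ω ≤ a - 1 / ((m : ℝ) + 1)})
        (f := dens μ ℱ B k) (g := dens μ ℱ W k)
        integrable_condExp.integrableOn integrable_condExp.integrableOn
    rw [h0, setInt_dens hB k hC, setInt_dens hW k hC, setIntegral_const, smul_eq_mul] at h1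
    have h2 := h _ hC
    have h3 : (0 : ℝ) < 1 / ((m : ℝ) + 1) := by positivity
    have h4 : 0 ≤ μ.real {ω | dens μ ℱ B k ω + dens μ ℱ W k ω ≤ a - 1 / ((m : ℝ) + 1)} :=
      measureReal_nonneg
    nlinarith
  have h5 : ∀ᵐ ω ∂μ, ∀ m : ℕ, ¬ (dens μ ℱ B k ω + dens μ ℱ W k ω ≤ a - 1 / ((m : ℝ) + 1)) := by
    rw [ae_all_iff]
    intro m
    rw [ae_iff]
    simp only [not_not]
    exact (measureReal_eq_zero_iff (by finiteness)).1 (hm m)
  filter_upwards [h5] with ω hω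
  by_contra hcon
  push Not at hcon
  obtain ⟨m, hm⟩ := exists_nat_one_div_lt (sub_pos.2 hcon)
  exact hω m (by linarith)

lemma dens_nonneg (B : ℕ → Set Ω) : ∀ᵐ ω ∂μ, ∀ k, 0 ≤ dens μ ℱ B k ω := by
  rw [ae_all_iff]
  intro k
  exact condExp_nonneg (Eventually.of_forall fun ω => indicator_nonneg (fun _ _ => zero_le_one) _)

/-- an event which happens only finitely often has summable conditional probabilities -/
lemma sum_dens_bdd {W : ℕ → Set Ω} (hW : ∀ n, MeasurableSet[ℱ n] (W n))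
    (h : ∀ᵐ ω ∂μ, ∀ᶠ k in atTop, ω ∉ W k) :
    ∀ᵐ ω ∂μ, ∃ M : ℝ, ∀ K, ∑ k ∈ Finset.range K, dens μ ℱ W k ω ≤ M := by
  filter_upwards [ae_mem_limsup_atTop_iff μ hW, h, dens_nonneg (μ := μ) (ℱ := ℱ) W] with ω h1 h2 h3
  have h4 : ω ∉ limsup W atTop := by
    rw [mem_limsup_iff_frequently_mem]
    exact not_frequently.2 h2
  have h5 : ¬ Tendsto (fun n => ∑ k ∈ Finset.range n, dens μ ℱ W k ω) atTop atTop := fun h => h4 (h1.2 h)
  have hmono : Monotone (fun n => ∑ k ∈ Finset.range n, dens μ ℱ W k ω) :=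
    monotone_nat_of_le_succ fun n => by
      rw [Finset.sum_range_succ]
      linarith [h3 n]
  rcases tendsto_atTop_of_monotone hmono with h6 | ⟨M, hM⟩
  · exact absurd h6 h5
  · exact ⟨M, fun K => hmono.ge_of_tendsto hM K⟩

/-- the filtration along the times `s k` -/
def bf (ℱ : Filtration ℕ m0) {s : ℕ → ℕ} (hs : Monotone s) : Filtration ℕ m0 where
  seq k := ℱ (s k)
  mono' := fun _ _ h => ℱ.mono (hs h)
  le' := fun k => ℱ.le (s k)

/-- the number of the blocks `k < K` with exactly `r` chosen integers -/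
noncomputable def NB (A : ℕ → Set Ω) (s J : ℕ → ℕ) (r K : ℕ) (ω : Ω) : ℕ :=
  ((Finset.range K).filter (fun k => cnt A (s k) (J k) ω = r)).card

/-- the violations -/
def VV (μ : Measure Ω) (ℱ : Filtration ℕ m0) (A : ℕ → Set Ω) (s J : ℕ → ℕ) (l u : ℕ → ℝ) (n : ℕ) : Set Ω :=
  {ω | ∃ k, s k ≤ n ∧ n < s k + J k ∧ ¬ (l k ≤ dens μ ℱ A n ω ∧ dens μ ℱ A n ω ≤ u k)}

lemma VV_meas (s J : ℕ → ℕ) (l u : ℕ → ℝ) (n : ℕ) : MeasurableSet[ℱ n] (VV μ ℱ A s J l u n) := by
  have e : VV μ ℱ A s J l u n = ⋃ k, ({ω | s k ≤ n ∧ n < s k + J k} ∩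
      (dens μ ℱ A n ⁻¹' (Icc (l k) (u k)))ᶜ) := by
    ext ω
    simp only [VV, mem_ofPred_eq, mem_iUnion, mem_inter_iff, mem_compl_iff, mem_preimage, mem_Icc, and_assoc]
  rw [e]
  refine MeasurableSet.iUnion fun k => ?_
  refine MeasurableSet.inter ?_ ?_
  · by_cases h : s k ≤ n ∧ n < s k + J k
    · have : {ω : Ω | s k ≤ n ∧ n < s k + J k} = univ := by ext ω; simp [h]
      rw [this]; exact @MeasurableSet.univ _ (ℱ n)
    · have : {ω : Ω | s k ≤ n ∧ n < s k + J k} = ∅ := by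
        ext ω
        simp only [mem_ofPred_eq, mem_empty_iff_false, iff_false]
        exact h
      rw [this]; exact @MeasurableSet.empty _ (ℱ n)
  · exact ((dens_meas n).measurable measurableSet_Icc).compl

/-- **The law for the blocks.** -/
theorem block_law (hA : ∀ n, MeasurableSet[ℱ n] (A n)) {s J : ℕ → ℕ} (hs : Monotone s)
    (hJ : ∀ k, s k + J k ≤ s (k + 1)) {l u : ℕ → ℝ} (hl0 : ∀ k, 0 ≤ l k) (hlu : ∀ k, l k ≤ u k)
    (hu1 : ∀ k, u k ≤ 1)
    (hb : ∀ᵐ ω ∂μ, ∀ᶠ k in atTop, ∀ n, s k ≤ n → n < s k + J k →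
      l k ≤ dens μ ℱ A n ω ∧ dens μ ℱ A n ω ≤ u k) (r : ℕ) :
    (Summable (fun k => ((J k).choose r : ℝ) * u k ^ r * (1 - l k) ^ (J k - r)) →
      ∀ᵐ ω ∂μ, ∀ᶠ k in atTop, cnt A (s k) (J k) ω ≠ r) ∧
    (Tendsto (fun K => ∑ k ∈ Finset.range K, ((J k).choose r : ℝ) * l k ^ r * (1 - u k) ^ (J k - r))
      atTop atTop → ∀ᵐ ω ∂μ, ∀ ε : ℝ, 0 < ε → ∀ᶠ K in atTop,
        (1 - ε) * ∑ k ∈ Finset.range K, ((J k).choose r : ℝ) * l k ^ r * (1 - u k) ^ (J k - r) ≤
          NB A s J r K ω) ∧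
    (Tendsto (fun K => ∑ k ∈ Finset.range K, ((J k).choose r : ℝ) * u k ^ r * (1 - l k) ^ (J k - r))
      atTop atTop → ∀ᵐ ω ∂μ, ∀ ε : ℝ, 0 < ε → ∀ᶠ K in atTop,
        (NB A s J r K ω : ℝ) ≤
          (1 + ε) * ∑ k ∈ Finset.range K, ((J k).choose r : ℝ) * u k ^ r * (1 - l k) ^ (J k - r)) := by
  classical
  set V := VV μ ℱ A s J l u with hVdef
  have hV : ∀ n, MeasurableSet[ℱ n] (V n) := VV_meas s J l u
  have hbd : ∀ k n, s k ≤ n → n < s k + J k → ∀ ω, ω ∉ V n →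
      l k ≤ dens μ ℱ A n ω ∧ dens μ ℱ A n ω ≤ u k := by
    intro k n h1 h2 ω hω
    by_contra hcon
    exact hω ⟨k, h1, h2, hcon⟩
  set 𝒢 := bf ℱ hs with h𝒢
  set B : ℕ → Set Ω := fun k => match k with
    | 0 => ∅
    | k + 1 => EX A V (s k) r (J k) with hBdef
  set W : ℕ → Set Ω := fun k => match k with
    | 0 => ∅
    | k + 1 => WV V (s k) (J k) with hWdef
  have hBm : ∀ k, MeasurableSet[𝒢 k] (B k) := by
    intro k
    cases k with
    | zero => exact @MeasurableSet.empty _ (𝒢 0)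
    | succ k => exact ℱ.mono (hJ k) _ (EX_meas hA hV (s k) r (J k))
  have hWm : ∀ k, MeasurableSet[𝒢 k] (W k) := by
    intro k
    cases k with
    | zero => exact @MeasurableSet.empty _ (𝒢 0)
    | succ k => exact ℱ.mono (hJ k) _ (WV_meas' hV (s k) (J k))
  set α : ℕ → ℝ := fun k => ((J k).choose r : ℝ) * l k ^ r * (1 - u k) ^ (J k - r) with hα
  set β : ℕ → ℝ := fun k => ((J k).choose r : ℝ) * u k ^ r * (1 - l k) ^ (J k - r) with hβ
  have hβ0 : ∀ k, 0 ≤ β k := fun k =>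
    mul_nonneg (mul_nonneg (Nat.cast_nonneg _) (pow_nonneg ((hl0 k).trans (hlu k)) _))
      (pow_nonneg (by linarith [hlu k, hu1 k]) _)
  have hup : ∀ᵐ ω ∂μ, ∀ k, dens μ 𝒢 B k ω ≤ β k := by
    rw [ae_all_iff]
    intro k
    exact dens_le_of hBm fun C hC => EX_upper hA hV ((hlu k).trans (hu1 k)) ((hl0 k).trans (hlu k))
      (s k) hC (J k) (hbd k) r
  have hlo : ∀ᵐ ω ∂μ, ∀ k, α k ≤ dens μ 𝒢 B k ω + dens μ 𝒢 W k ω := by
    rw [ae_all_iff]
    intro k
    exact dens_ge_of hBm hWm fun C hC => EX_lower hA hV (hl0 k) (hlu k) (hu1 k) (s k) hC (J k) (hbd k) r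
  have hWev : ∀ᵐ ω ∂μ, ∀ᶠ k in atTop, ω ∉ W k := by
    filter_upwards [hb] with ω hω
    obtain ⟨k₀, hk₀⟩ := eventually_atTop.1 hω
    filter_upwards [eventually_ge_atTop (k₀ + 1)] with k hk
    obtain ⟨k, rfl⟩ : ∃ k', k = k' + 1 := ⟨k - 1, by omega⟩
    rintro ⟨n, h1, h2, k', h3, h4, h5⟩
    refine h5 (hk₀ k' ?_ n h3 h4)
    by_contra hcon
    push Not at hcon
    have h6 : s (k' + 1) ≤ s k := hs (by omega)
    have h7 := hJ k'
    omega
  have hWb := sum_dens_bdd (μ := μ) (ℱ := 𝒢) hWm hWev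
  have hlim := ae_mem_limsup_atTop_iff μ (ℱ := 𝒢) hBm
  have hlevy := levy (μ := μ) (ℱ := 𝒢) (A := B) hBm (fun _ _ => 1) (fun _ => stronglyMeasurable_const)
    (fun _ _ => ⟨zero_le_one, le_rfl⟩)
  simp only [one_mul] at hlevy
  -- comparison of the counts
  have hJ1 : ∀ ω K, ∑ k ∈ Finset.range K, J1 B (k + 1) ω =
      (((Finset.range K).filter (fun k => ω ∈ B (k + 1))).card : ℝ) := by
    intro ω K
    rw [Finset.card_filter, Nat.cast_sum]
    refine Finset.sum_congr rfl fun k _ => ?_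
    unfold J1
    by_cases h : ω ∈ B (k + 1)
    · rw [indicator_of_mem h, if_pos h, Nat.cast_one]
    · rw [indicator_of_notMem h, if_neg h, Nat.cast_zero]
  have hcl : ∀ ω K, ((Finset.range K).filter (fun k => ω ∈ B (k + 1))).card ≤ NB A s J r K ω := by
    intro ω K
    refine Finset.card_le_card fun k hk => ?_
    rw [Finset.mem_filter] at hk ⊢
    exact ⟨hk.1, hk.2.1⟩
  have hcu : ∀ᵐ ω ∂μ, ∃ k₀ : ℕ, ∀ K, NB A s J r K ω ≤
      ((Finset.range K).filter (fun k => ω ∈ B (k + 1))).card + k₀ := by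
    filter_upwards [hWev] with ω hω
    obtain ⟨k₀, hk₀⟩ := eventually_atTop.1 hω
    refine ⟨k₀, fun K => ?_⟩
    have h1 : (Finset.range K).filter (fun k => cnt A (s k) (J k) ω = r) ⊆
        (Finset.range K).filter (fun k => ω ∈ B (k + 1)) ∪ Finset.range k₀ := by
      intro k hk
      rw [Finset.mem_filter] at hk
      rw [Finset.mem_union, Finset.mem_filter, Finset.mem_range (n := k₀)]
      rcases Nat.lt_or_ge k k₀ with h | h
      · exact Or.inr h
      · exact Or.inl ⟨hk.1, hk.2, hk₀ (k + 1) (by omega)⟩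
    refine (Finset.card_le_card h1).trans ((Finset.card_union_le _ _).trans ?_)
    rw [Finset.card_range]
  refine ⟨fun hsum => ?_, fun hdiv => ?_, fun hdiv => ?_⟩
  · filter_upwards [hup, hlim, hWev] with ω h1 h2 h3
    have h4 : ¬ Tendsto (fun n => ∑ k ∈ Finset.range n, dens μ 𝒢 B k ω) atTop atTop := by
      intro h
      obtain ⟨K, hK⟩ := (h.eventually_gt_atTop (∑' k, β k)).exists
      have h5 : ∑ k ∈ Finset.range K, dens μ 𝒢 B k ω ≤ ∑ k ∈ Finset.range K, β k :=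
        Finset.sum_le_sum fun k _ => h1 k
      have h6 := hsum.sum_le_tsum (Finset.range K) (fun k _ => hβ0 k)
      have h6' : ∑ k ∈ Finset.range K, β k ≤ ∑' k, β k := h6
      linarith
    have h5 : ω ∉ limsup B atTop := fun h => h4 (h2.1 h)
    rw [mem_limsup_iff_frequently_mem, not_frequently] at h5
    obtain ⟨k₁, hk₁⟩ := eventually_atTop.1 h5
    obtain ⟨k₂, hk₂⟩ := eventually_atTop.1 h3
    filter_upwards [eventually_ge_atTop (max k₁ k₂)] with k hk heq
    have hk1 : k₁ ≤ k := (le_max_left _ _).trans hk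
    have hk2 : k₂ ≤ k := (le_max_right _ _).trans hk
    exact hk₁ (k + 1) (by omega) ⟨heq, hk₂ (k + 1) (by omega)⟩
  · filter_upwards [hlo, hWb, hlevy] with ω h1 h2 h3 ε hε
    obtain ⟨M, hM⟩ := h2
    have h4 : ∀ K, ∑ k ∈ Finset.range K, α k - M ≤ ∑ k ∈ Finset.range K, dens μ 𝒢 B k ω := by
      intro K
      have h5 : ∑ k ∈ Finset.range K, α k ≤
          ∑ k ∈ Finset.range K, (dens μ 𝒢 B k ω + dens μ 𝒢 W k ω) := Finset.sum_le_sum fun k _ => h1 k
      rw [Finset.sum_add_distrib] at h5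
      linarith [hM K]
    have h5 : Tendsto (fun K => ∑ k ∈ Finset.range K, dens μ 𝒢 B k ω) atTop atTop := by
      refine tendsto_atTop_mono h4 ?_
      exact tendsto_atTop_add_const_right _ (-M) hdiv
    have h6 := h3 h5
    have h7 := h6.eventually_const_lt (show 1 - min (ε / 2) (1 / 2) < 1 by
      have : 0 < min (ε / 2) (1 / 2) := lt_min (by positivity) (by norm_num)
      linarith)
    filter_upwards [h7, h5.eventually_gt_atTop 0, hdiv.eventually_ge_atTop (2 * |M| / ε),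
      hdiv.eventually_ge_atTop 0] with K h8 h9 h10 h11
    rw [lt_div_iff₀ h9] at h8
    have h12 : ((((Finset.range K).filter (fun k => ω ∈ B (k + 1))).card : ℕ) : ℝ) ≤ NB A s J r K ω := by
      exact_mod_cast hcl ω K
    rw [← hJ1] at h12
    refine le_trans ?_ h12
    refine le_trans ?_ h8.le
    have h13 := h4 K
    set X := ∑ k ∈ Finset.range K, α k with hX
    set D := ∑ k ∈ Finset.range K, dens μ 𝒢 B k ω with hD
    set e := min (ε / 2) (1 / 2) with he
    have he1 : e ≤ ε / 2 := min_le_left _ _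
    have he2 : e ≤ 1 / 2 := min_le_right _ _
    have he0 : 0 < e := lt_min (by positivity) (by norm_num)
    have h14 : |M| ≤ ε / 2 * X := by
      have h10' := (div_le_iff₀ hε).1 h10
      linarith
    have h11' : 0 ≤ X := h11
    have h15 : (1 - e) * (X - M) ≤ (1 - e) * D := mul_le_mul_of_nonneg_left h13 (by linarith)
    have h16 : (1 - e) * M ≤ |M| := by
      have := le_abs_self M
      have h0 := abs_nonneg M
      nlinarith
    have h17 : e * X ≤ ε / 2 * X := mul_le_mul_of_nonneg_right he1 h11'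
    nlinarith
  · filter_upwards [hup, hlim, hlevy, hcu] with ω h1 h2 h3 h4 ε hε
    obtain ⟨k₀, hk₀⟩ := h4
    have key : ∃ k₁ : ℕ, ∀ᶠ K in atTop, ((((Finset.range K).filter (fun k => ω ∈ B (k + 1))).card : ℕ) : ℝ) ≤
        (1 + ε / 2) * ∑ k ∈ Finset.range K, β k + k₁ := by
      by_cases h5 : Tendsto (fun n => ∑ k ∈ Finset.range n, dens μ 𝒢 B k ω) atTop atTop
      · refine ⟨0, ?_⟩
        have h7 := (h3 h5).eventually_lt_const (show (1 : ℝ) < 1 + ε / 2 by linarith)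
        filter_upwards [h7, h5.eventually_gt_atTop 0] with K h8 h9
        rw [div_lt_iff₀ h9] at h8
        rw [hJ1] at h8
        have h10 : ∑ k ∈ Finset.range K, dens μ 𝒢 B k ω ≤ ∑ k ∈ Finset.range K, β k :=
          Finset.sum_le_sum fun k _ => h1 k
        have h11 := mul_le_mul_of_nonneg_left h10 (show 0 ≤ 1 + ε / 2 by linarith)
        push_cast
        linarith
      · have h6 : ω ∉ limsup B atTop := fun h => h5 (h2.1 h)
        rw [mem_limsup_iff_frequently_mem, not_frequently] at h6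
        obtain ⟨k₁, hk₁⟩ := eventually_atTop.1 h6
        refine ⟨k₁, Eventually.of_forall fun K => ?_⟩
        have h7 : (Finset.range K).filter (fun k => ω ∈ B (k + 1)) ⊆ Finset.range k₁ := by
          intro k hk
          rw [Finset.mem_filter] at hk
          rw [Finset.mem_range]
          by_contra hcon
          exact hk₁ (k + 1) (by omega) hk.2
        have h8 := Finset.card_le_card h7
        rw [Finset.card_range] at h8
        have h9 : (0 : ℝ) ≤ (1 + ε / 2) * ∑ k ∈ Finset.range K, β k :=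
          mul_nonneg (by linarith) (Finset.sum_nonneg fun k _ => hβ0 k)
        have h10 : ((((Finset.range K).filter (fun k => ω ∈ B (k + 1))).card : ℕ) : ℝ) ≤ k₁ := by
          exact_mod_cast h8
        linarith
    obtain ⟨k₁, hk₁⟩ := key
    filter_upwards [hk₁, hdiv.eventually_ge_atTop (2 * (k₀ + k₁) / ε)] with K h5 h6
    have h7 : ((NB A s J r K ω : ℕ) : ℝ) ≤
        ((((Finset.range K).filter (fun k => ω ∈ B (k + 1))).card : ℕ) : ℝ) + k₀ := by
      exact_mod_cast hk₀ K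
    have h6' := (div_le_iff₀ hε).1 h6
    have h8 : ((k₀ : ℝ) + k₁) ≤ ε / 2 * ∑ k ∈ Finset.range K, β k := by linarith
    change (NB A s J r K ω : ℝ) ≤ (1 + ε) * ∑ k ∈ Finset.range K, β k
    linarith

end Pool.Agent.N634.OS
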