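import Mathlib
import Pool.Agent.N634.OS.Law

/-!
# The law for the blocks: comparison with explicit sequences
-/

set_option autoImplicit false
set_option linter.unusedSectionVars false

open MeasureTheory Filter Set
open scoped ENNReal Topology

namespace Pool.Agent.N634.OS

open Pool.Agent.R528.RM Pool.Agent.N740.HK

variable {Ω : Type} {m0 : MeasurableSpace Ω} {μ : Measure Ω} [IsProbabilityMeasure μ]
  {ℱ : Filtration ℕ m0} {A : ℕ → Set Ω}

lemma sum_ge_of {f g : ℕ → ℝ} (h : ∀ᶠ k in atTop, f k ≤ g k) :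
    ∃ M : ℝ, ∀ K, ∑ k ∈ Finset.range K, f k ≤ ∑ k ∈ Finset.range K, g k + M := by
  obtain ⟨k₀, hk₀⟩ := eventually_atTop.1 h
  refine ⟨∑ k ∈ Finset.range k₀, |f k - g k|, fun K => ?_⟩
  have h1 : ∀ K, ∑ k ∈ Finset.range K, (f k - g k) ≤ ∑ k ∈ Finset.range k₀, |f k - g k| := by
    intro K
    have h2 : ∑ k ∈ Finset.range K, (f k - g k) ≤
        ∑ k ∈ Finset.range K, (if k < k₀ then |f k - g k| else 0) := by
      refine Finset.sum_le_sum fun k _ => ?_
      by_cases hk : k < k₀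
      · rw [if_pos hk]; exact le_abs_self _
      · rw [if_neg hk]
        have := hk₀ k (not_lt.1 hk)
        linarith
    refine h2.trans ?_
    rw [← Finset.sum_filter]
    refine Finset.sum_le_sum_of_subset_of_nonneg ?_ fun _ _ _ => abs_nonneg _
    intro k hk
    rw [Finset.mem_filter] at hk
    exact Finset.mem_range.2 hk.2
  have := h1 K
  rw [Finset.sum_sub_distrib] at this
  linarith

/-- the numbers of the blocks, compared with explicit sequences -/
theorem block_cor (hA : ∀ n, MeasurableSet[ℱ n] (A n)) {s J : ℕ → ℕ} (hs : Monotone s)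
    (hJ : ∀ k, s k + J k ≤ s (k + 1)) {l u : ℕ → ℝ} (hl0 : ∀ k, 0 ≤ l k) (hlu : ∀ k, l k ≤ u k)
    (hu1 : ∀ k, u k ≤ 1)
    (hb : ∀ᵐ ω ∂μ, ∀ᶠ k in atTop, ∀ n, s k ≤ n → n < s k + J k →
      l k ≤ dens μ ℱ A n ω ∧ dens μ ℱ A n ω ≤ u k) (r : ℕ) :
    (∀ f : ℕ → ℝ, Summable f →
      (∀ᶠ k in atTop, ((J k).choose r : ℝ) * u k ^ r * (1 - l k) ^ (J k - r) ≤ f k) →
      ∀ᵐ ω ∂μ, ∀ᶠ k in atTop, cnt A (s k) (J k) ω ≠ r) ∧
    (∀ f : ℕ → ℝ, Tendsto (fun K => ∑ k ∈ Finset.range K, f k) atTop atTop →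
      (∀ᶠ k in atTop, f k ≤ ((J k).choose r : ℝ) * l k ^ r * (1 - u k) ^ (J k - r)) →
      ∀ᵐ ω ∂μ, ∀ᶠ K in atTop, (1 / 2) * ∑ k ∈ Finset.range K, f k ≤ NB A s J r K ω) ∧
    (∀ f : ℕ → ℝ, Tendsto (fun K => ∑ k ∈ Finset.range K, f k) atTop atTop →
      (∀ᶠ k in atTop, ((J k).choose r : ℝ) * u k ^ r * (1 - l k) ^ (J k - r) ≤ f k) →
      ∀ᵐ ω ∂μ, ∀ᶠ K in atTop, (NB A s J r K ω : ℝ) ≤ 2 * ∑ k ∈ Finset.range K, f k) := by
  obtain ⟨h1, h2, h3⟩ := block_law hA hs hJ hl0 hlu hu1 hb r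
  set β : ℕ → ℝ := fun k => ((J k).choose r : ℝ) * u k ^ r * (1 - l k) ^ (J k - r) with hβ
  have hβ0 : ∀ k, 0 ≤ β k := fun k =>
    mul_nonneg (mul_nonneg (Nat.cast_nonneg _) (pow_nonneg ((hl0 k).trans (hlu k)) _))
      (pow_nonneg (by linarith [hlu k, hu1 k]) _)
  refine ⟨fun f hf hle => h1 ?_, fun f hf hle => ?_, fun f hf hle => ?_⟩
  · refine Summable.of_norm_bounded_eventually_nat (g := f) hf ?_
    filter_upwards [hle] with k hk
    rw [Real.norm_of_nonneg (hβ0 k)]
    exact hk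
  · obtain ⟨M, hM⟩ := sum_ge_of hle
    have hd : Tendsto (fun K => ∑ k ∈ Finset.range K, ((J k).choose r : ℝ) * l k ^ r *
        (1 - u k) ^ (J k - r)) atTop atTop := by
      refine tendsto_atTop_mono (f := fun K => ∑ k ∈ Finset.range K, f k + -M) (fun K => ?_)
        (tendsto_atTop_add_const_right _ (-M) hf)
      have := hM K
      linarith
    filter_upwards [h2 hd] with ω hω
    filter_upwards [hω (1 / 4) (by norm_num), hf.eventually_ge_atTop (3 * |M|)] with K h4 h5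
    have h6 := hM K
    have h7 := neg_abs_le M
    have h8 := le_abs_self M
    refine le_trans ?_ h4
    have h9 : ∑ k ∈ Finset.range K, f k - |M| ≤ ∑ k ∈ Finset.range K, ((J k).choose r : ℝ) * l k ^ r *
        (1 - u k) ^ (J k - r) := by linarith
    have h5' : 3 * |M| ≤ ∑ k ∈ Finset.range K, f k := h5
    nlinarith
  · obtain ⟨M, hM⟩ := sum_ge_of hle
    by_cases hd : Tendsto (fun K => ∑ k ∈ Finset.range K, β k) atTop atTop
    · filter_upwards [h3 hd] with ω hω
      filter_upwards [hω (1 / 2) (by norm_num), hf.eventually_ge_atTop (3 * |M|)] with K h4 h5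
      have h6 : ∑ k ∈ Finset.range K, β k ≤ ∑ k ∈ Finset.range K, f k + M := hM K
      have h8 := le_abs_self M
      have h5' : 3 * |M| ≤ ∑ k ∈ Finset.range K, f k := h5
      have h4' : (NB A s J r K ω : ℝ) ≤ (1 + 1 / 2) * ∑ k ∈ Finset.range K, β k := h4
      nlinarith
    · have hmono : Monotone (fun K => ∑ k ∈ Finset.range K, β k) :=
        monotone_nat_of_le_succ fun n => by
          rw [Finset.sum_range_succ]
          linarith [hβ0 n]
      have hsum : Summable β := by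
        rcases tendsto_atTop_of_monotone hmono with h6 | ⟨L, hL⟩
        · exact absurd h6 hd
        · exact summable_of_sum_range_le hβ0 fun K => hmono.ge_of_tendsto hL K
      filter_upwards [h1 hsum] with ω hω
      obtain ⟨k₀, hk₀⟩ := eventually_atTop.1 hω
      filter_upwards [hf.eventually_ge_atTop (k₀ : ℝ)] with K h5
      have h6 : NB A s J r K ω ≤ k₀ := by
        unfold NB
        have h7 : (Finset.range K).filter (fun k => cnt A (s k) (J k) ω = r) ⊆ Finset.range k₀ := by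
          intro k hk
          rw [Finset.mem_filter] at hk
          rw [Finset.mem_range]
          by_contra hcon
          exact hk₀ k (not_lt.1 hcon) hk.2
        have := Finset.card_le_card h7
        rwa [Finset.card_range] at this
      have h7 : (NB A s J r K ω : ℝ) ≤ k₀ := by exact_mod_cast h6
      have h5' : (k₀ : ℝ) ≤ ∑ k ∈ Finset.range K, f k := h5
      have h8 : (0 : ℝ) ≤ k₀ := Nat.cast_nonneg _
      linarith

/-- elementary bounds for the binomial weights -/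
lemma beta_le {J r : ℕ} {l u : ℝ} (hl : l ≤ 1) (hu : 0 ≤ u) :
    (J.choose r : ℝ) * u ^ r * (1 - l) ^ (J - r) ≤ (J * u) ^ r * Real.exp (-(l * (J - r : ℕ))) := by
  have h1 : (J.choose r : ℝ) ≤ (J : ℝ) ^ r := by exact_mod_cast Nat.choose_le_pow J r
  have h2 : (1 - l) ^ (J - r) ≤ Real.exp (-(l * (J - r : ℕ))) := by
    have h3 : 1 - l ≤ Real.exp (-l) := by
      have := Real.add_one_le_exp (-l)
      linarith
    calc (1 - l) ^ (J - r) ≤ Real.exp (-l) ^ (J - r) := pow_le_pow_left₀ (by linarith) h3 _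
      _ = Real.exp (-(l * (J - r : ℕ))) := by
          rw [← Real.exp_nat_mul]
          ring_nf
  rw [mul_pow]
  have h4 : 0 ≤ u ^ r := pow_nonneg hu _
  have h5 : 0 ≤ (1 - l) ^ (J - r) := pow_nonneg (by linarith) _
  calc (J.choose r : ℝ) * u ^ r * (1 - l) ^ (J - r) ≤ ((J : ℝ) ^ r * u ^ r) * (1 - l) ^ (J - r) := by
        gcongr
    _ ≤ _ := mul_le_mul_of_nonneg_left h2 (by positivity)

lemma alpha_ge {J r : ℕ} {l u : ℝ} (hl : 0 ≤ l) (hu0 : 0 ≤ u) (hu : u ≤ 1 / 2) :
    (1 / (r.factorial : ℝ)) * ((J + 1 - r : ℕ) * l) ^ r * Real.exp (-((u + 2 * u ^ 2) * J)) ≤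
      (J.choose r : ℝ) * l ^ r * (1 - u) ^ (J - r) := by
  have h1 : (((J + 1 - r : ℕ) : ℝ)) ^ r ≤ (r.factorial : ℝ) * (J.choose r : ℝ) := by
    have := Nat.pow_sub_le_descFactorial J r
    rw [Nat.descFactorial_eq_factorial_mul_choose] at this
    exact_mod_cast this
  have hf : (0 : ℝ) < r.factorial := by exact_mod_cast Nat.factorial_pos r
  have h2 : Real.exp (-((u + 2 * u ^ 2) * J)) ≤ (1 - u) ^ (J - r) := by
    have h3 : Real.exp (-(u + 2 * u ^ 2)) ≤ 1 - u := by
      have h4 : -(u + 2 * u ^ 2) ≤ Real.log (1 - u) := by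
        have h5 : |u + Real.log (1 - u)| ≤ 2 * u ^ 2 := by
          have h6 := Real.abs_log_sub_add_sum_range_le (x := u) (by rw [abs_of_nonneg hu0]; linarith) 1
          simp only [Finset.range_one, Finset.sum_singleton, Nat.cast_zero, zero_add, pow_one, div_one] at h6
          rw [abs_of_nonneg hu0] at h6
          refine h6.trans ?_
          rw [div_le_iff₀ (by linarith)]
          have h7 : 0 ≤ u ^ 2 * (1 / 2 - u) := mul_nonneg (sq_nonneg u) (by linarith)
          have h8 : u ^ (1 + 1) = u ^ 2 := by norm_num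
          rw [h8]
          linarith
        linarith [(abs_le.1 h5).1]
      calc Real.exp (-(u + 2 * u ^ 2)) ≤ Real.exp (Real.log (1 - u)) := Real.exp_le_exp.2 h4
        _ = 1 - u := Real.exp_log (by linarith)
    calc Real.exp (-((u + 2 * u ^ 2) * J)) = Real.exp (-(u + 2 * u ^ 2)) ^ J := by
          rw [← Real.exp_nat_mul]; ring_nf
      _ ≤ (1 - u) ^ J := pow_le_pow_left₀ (Real.exp_pos _).le h3 _
      _ ≤ (1 - u) ^ (J - r) := pow_le_pow_of_le_one (by linarith) (by linarith) (Nat.sub_le J r)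
  rw [mul_pow]
  calc (1 / (r.factorial : ℝ)) * ((((J + 1 - r : ℕ) : ℝ)) ^ r * l ^ r) * Real.exp (-((u + 2 * u ^ 2) * J))
      ≤ (1 / (r.factorial : ℝ)) * (((r.factorial : ℝ) * (J.choose r : ℝ)) * l ^ r) *
          Real.exp (-((u + 2 * u ^ 2) * J)) := by gcongr
    _ = (J.choose r : ℝ) * l ^ r * Real.exp (-((u + 2 * u ^ 2) * J)) := by field_simp
    _ ≤ _ := mul_le_mul_of_nonneg_left h2 (by positivity)

end Pool.Agent.N634.OS
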