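import Mathlib
import Pool.Agent.N634.OS.Cor
import Pool.Agent.N634.OS.Ana

/-!
# The intervals between consecutive odd squares
-/

set_option autoImplicit false
set_option linter.unusedSectionVars false

open MeasureTheory Filter Set
open scoped ENNReal Topology

namespace Pool.Agent.N634.OS

open Pool.Agent.R528.RM Pool.Agent.N740.HK

/-- the index of the block of `n` -/
def R (n : ℕ) : ℕ := (Nat.sqrt n - 1) / 2

/-- the blocks -/
def sq (k : ℕ) : ℕ := (2 * k + 1) ^ 2

def len (k : ℕ) : ℕ := 8 * k + 7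

lemma sq_mono : Monotone sq := fun a b h => Nat.pow_le_pow_left (by omega) 2

lemma sq_len (k : ℕ) : sq k + len k ≤ sq (k + 1) := by
  unfold sq len
  nlinarith

lemma R_eq {k n : ℕ} (h1 : sq k ≤ n) (h2 : n < sq k + len k) : R n = k := by
  unfold sq len at *
  have h3 : 2 * k + 1 ≤ Nat.sqrt n := Nat.le_sqrt'.2 h1
  have h4 : Nat.sqrt n < 2 * k + 3 := Nat.sqrt_lt'.2 (by nlinarith)
  unfold R
  omega

lemma R_bd {n : ℕ} (hn : 1 ≤ n) : 2 * (R n : ℝ) ≤ √(n : ℝ) ∧ √(n : ℝ) ≤ 2 * R n + 3 := by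
  have h0 : 1 ≤ Nat.sqrt n := Nat.le_sqrt'.2 (by simpa using hn)
  have h1 : 2 * R n ≤ Nat.sqrt n := by unfold R; omega
  have h2 : Nat.sqrt n + 1 ≤ 2 * R n + 3 := by unfold R; omega
  have h3 : (Nat.sqrt n : ℝ) ≤ √(n : ℝ) := Real.nat_sqrt_le_real_sqrt
  have h4 : √(n : ℝ) ≤ (Nat.sqrt n : ℝ) + 1 := Real.real_sqrt_le_nat_sqrt_succ
  have h1' : 2 * (R n : ℝ) ≤ Nat.sqrt n := by exact_mod_cast h1
  have h2' : (Nat.sqrt n : ℝ) + 1 ≤ 2 * R n + 3 := by exact_mod_cast h2
  exact ⟨h1'.trans h3, h4.trans h2'⟩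

lemma sqrt_top : Tendsto (fun n : ℕ => √(n : ℝ)) atTop atTop :=
  Real.tendsto_sqrt_atTop.comp tendsto_natCast_atTop_atTop

lemma R_top : Tendsto (fun n : ℕ => (R n : ℝ)) atTop atTop := by
  have h1 : Tendsto (fun n : ℕ => (√(n : ℝ) - 3) / 2) atTop atTop := by
    have := (tendsto_atTop_add_const_right _ (-3) sqrt_top).atTop_div_const (show (0 : ℝ) < 2 by norm_num)
    simpa [sub_eq_add_neg] using this
  refine tendsto_atTop_mono' _ ?_ h1
  filter_upwards [eventually_ge_atTop 1] with n hn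
  linarith [(R_bd hn).2]

lemma log_top : Tendsto (fun n : ℕ => Real.log n) atTop atTop :=
  Real.tendsto_log_atTop.comp tendsto_natCast_atTop_atTop

lemma logR_top : Tendsto (fun n : ℕ => Real.log (R n)) atTop atTop :=
  Real.tendsto_log_atTop.comp R_top

lemma llR_top : Tendsto (fun n : ℕ => Real.log (Real.log (R n))) atTop atTop :=
  Real.tendsto_log_atTop.comp logR_top

lemma ratio_bd {n : ℕ} (hn : 1 ≤ n) : |2 * (R n : ℝ) / √(n : ℝ) - 1| ≤ 3 / √(n : ℝ) := by
  obtain ⟨h1, h2⟩ := R_bd hn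
  have h3 : 0 < √(n : ℝ) := Real.sqrt_pos.2 (by exact_mod_cast hn)
  rw [div_sub_one h3.ne', abs_div, abs_of_pos h3]
  refine div_le_div_of_nonneg_right ?_ h3.le
  rw [abs_le]
  constructor <;> linarith

lemma T1 : Tendsto (fun n : ℕ => 2 * (R n : ℝ) / √(n : ℝ)) atTop (𝓝 1) := by
  have h1 : Tendsto (fun n : ℕ => 3 / √(n : ℝ)) atTop (𝓝 0) := sqrt_top.const_div_atTop 3
  have h2 : Tendsto (fun n : ℕ => 2 * (R n : ℝ) / √(n : ℝ) - 1) atTop (𝓝 0) :=
    squeeze_zero_norm' (by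
      filter_upwards [eventually_ge_atTop 1] with n hn
      exact ratio_bd hn) h1
  simpa using h2.add_const 1

lemma T3 : Tendsto (fun n : ℕ => Real.log n / 2 - Real.log (R n)) atTop (𝓝 (Real.log 2)) := by
  have h1 : Tendsto (fun n : ℕ => Real.log 2 - Real.log (2 * (R n : ℝ) / √(n : ℝ))) atTop
      (𝓝 (Real.log 2 - Real.log 1)) := (T1.log one_ne_zero).const_sub _
  rw [Real.log_one, sub_zero] at h1
  refine h1.congr' ?_
  filter_upwards [eventually_ge_atTop 1, R_top.eventually_gt_atTop 0] with n hn hR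
  have hn0 : (0 : ℝ) < n := by exact_mod_cast hn
  have h3 : 0 < √(n : ℝ) := Real.sqrt_pos.2 hn0
  rw [Real.log_div (by positivity) h3.ne', Real.log_mul (by norm_num) hR.ne', Real.log_sqrt hn0.le]
  ring

lemma T5 : Tendsto (fun n : ℕ => Real.log n / Real.log (R n)) atTop (𝓝 2) := by
  have h1 := T3.div_atTop logR_top
  have h2 := (h1.add_const 1).const_mul 2
  rw [zero_add, mul_one] at h2
  refine h2.congr' ?_
  filter_upwards [logR_top.eventually_gt_atTop 0] with n hn
  field_simp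
  ring

lemma T2 : Tendsto (fun n : ℕ => Real.log (Real.log n) / Real.log (Real.log (R n))) atTop (𝓝 1) := by
  have h1 : Tendsto (fun n : ℕ => Real.log (Real.log n / Real.log (R n))) atTop (𝓝 (Real.log 2)) :=
    T5.log (by norm_num)
  have h2 := (h1.div_atTop llR_top).add_const 1
  rw [zero_add] at h2
  refine h2.congr' ?_
  filter_upwards [logR_top.eventually_gt_atTop 0, log_top.eventually_gt_atTop 0,
    llR_top.eventually_gt_atTop 0] with n h3 h4 h5
  rw [Real.log_div h4.ne' h3.ne']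
  field_simp
  ring

lemma T4 : Tendsto (fun n : ℕ => Real.log n / 2 * (2 * (R n : ℝ) / √(n : ℝ) - 1)) atTop (𝓝 0) := by
  have h1 : Tendsto (fun n : ℕ => Real.log n / √(n : ℝ)) atTop (𝓝 0) := by
    have h2 := (isLittleO_log_rpow_atTop (r := 1 / 2) (by norm_num)).tendsto_div_nhds_zero
    have h3 := h2.comp tendsto_natCast_atTop_atTop
    refine h3.congr fun n => ?_
    simp only [Function.comp_apply]
    rw [← Real.sqrt_eq_rpow]
  have h4 := h1.const_mul (3 / 2)
  rw [mul_zero] at h4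
  refine squeeze_zero_norm' ?_ h4
  filter_upwards [eventually_ge_atTop 1] with n hn
  have h5 := ratio_bd hn
  have h6 : 0 ≤ Real.log n := Real.log_natCast_nonneg n
  rw [norm_mul, Real.norm_eq_abs, Real.norm_eq_abs, abs_of_nonneg (by positivity)]
  calc Real.log n / 2 * |2 * (R n : ℝ) / √(n : ℝ) - 1| ≤ Real.log n / 2 * (3 / √(n : ℝ)) :=
        mul_le_mul_of_nonneg_left h5 (by positivity)
    _ = 3 / 2 * (Real.log n / √(n : ℝ)) := by ring

/-- the first order hypothesis in terms of the block index -/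
lemma first {d : ℕ → ℝ} {κ : ℝ} (h : Tendsto (fun n : ℕ => d n * √(n : ℝ) / Real.log n) atTop (𝓝 κ)) :
    Tendsto (fun n : ℕ => d n * R n / Real.log (R n)) atTop (𝓝 κ) := by
  have h1 := (h.mul T1).mul (T5.div_const 2)
  have h2 : κ * 1 * (2 / 2) = κ := by norm_num
  rw [h2] at h1
  refine h1.congr' ?_
  filter_upwards [eventually_ge_atTop 1, logR_top.eventually_gt_atTop 0, log_top.eventually_gt_atTop 0]
    with n hn h3 h4
  have hn0 : (0 : ℝ) < n := by exact_mod_cast hn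
  have h5 : 0 < √(n : ℝ) := Real.sqrt_pos.2 hn0
  field_simp

/-- the second order hypothesis in terms of the block index -/
lemma second {d : ℕ → ℝ} {c : ℝ}
    (h : Tendsto (fun n : ℕ => (4 * √(n : ℝ) * d n - Real.log n / 2) / Real.log (Real.log n)) atTop (𝓝 c)) :
    Tendsto (fun n : ℕ => (d n * (8 * R n) - Real.log (R n)) / Real.log (Real.log (R n))) atTop (𝓝 c) := by
  have h1 := (((h.mul T2).mul T1).add (T4.div_atTop llR_top)).add (T3.div_atTop llR_top)
  have h2 : c * 1 * 1 + 0 + 0 = c := by ring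
  rw [h2] at h1
  refine h1.congr' ?_
  have hll : Tendsto (fun n : ℕ => Real.log (Real.log n)) atTop atTop := Real.tendsto_log_atTop.comp log_top
  filter_upwards [eventually_ge_atTop 1, llR_top.eventually_gt_atTop 0, hll.eventually_gt_atTop 0]
    with n hn h3 h4
  have hn0 : (0 : ℝ) < n := by exact_mod_cast hn
  have h5 : 0 < √(n : ℝ) := Real.sqrt_pos.2 hn0
  field_simp
  ring

variable {Ω : Type} {m0 : MeasurableSpace Ω} {μ : Measure Ω} [IsProbabilityMeasure μ]
  {ℱ : Filtration ℕ m0} {A : ℕ → Set Ω}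

/-- clipping -/
noncomputable def clip (x : ℝ) : ℝ := max 0 (min 1 x)

lemma clip_mono : Monotone clip := fun _ _ h => max_le_max le_rfl (min_le_min le_rfl h)

lemma clip_bd (x : ℝ) : 0 ≤ clip x ∧ clip x ≤ 1 := ⟨le_max_left _ _, max_le zero_le_one (min_le_left _ _)⟩

lemma clip_eq {x : ℝ} (h0 : 0 ≤ x) (h1 : x ≤ 1) : clip x = x := by
  unfold clip
  rw [min_eq_right h1, max_eq_right h0]

lemma dens_le_one (hA : ∀ n, MeasurableSet[ℱ n] (A n)) : ∀ᵐ ω ∂μ, ∀ k, dens μ ℱ A k ω ≤ 1 := by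
  filter_upwards [DD'_ae (μ := μ) hA] with ω h k
  rw [← h k]
  exact (DD'_bd k ω).2

/-- the bounds in the blocks -/
lemma blk_bd (hA : ∀ n, MeasurableSet[ℱ n] (A n)) {Ha Hb : ℕ → ℝ}
    (h : ∀ᵐ ω ∂μ, ∀ᶠ n : ℕ in atTop, Ha (R n) ≤ dens μ ℱ A n ω * (8 * R n) ∧
      dens μ ℱ A n ω * (8 * R n) ≤ Hb (R n)) :
    ∀ᵐ ω ∂μ, ∀ᶠ k in atTop, ∀ n, sq k ≤ n → n < sq k + len k →
      clip (Ha k / (8 * k)) ≤ dens μ ℱ A n ω ∧ dens μ ℱ A n ω ≤ clip (Hb k / (8 * k)) := by
  filter_upwards [h, dens_nonneg (μ := μ) (ℱ := ℱ) A, dens_le_one (μ := μ) hA] with ω h1 h2 h3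
  obtain ⟨n₀, hn₀⟩ := eventually_atTop.1 h1
  filter_upwards [eventually_ge_atTop n₀, eventually_gt_atTop 0] with k hk hk0 n hn1 hn2
  have hR := R_eq hn1 hn2
  have hkn : k ≤ n := by
    have : k ≤ sq k := by unfold sq; nlinarith
    omega
  obtain ⟨h4, h5⟩ := hn₀ n (by omega)
  rw [hR] at h4 h5
  have hk8 : (0 : ℝ) < 8 * k := by positivity
  constructor
  · rw [← clip_eq (h2 n) (h3 n)]
    refine clip_mono ?_
    rw [div_le_iff₀ hk8]
    exact h4
  · rw [← clip_eq (h2 n) (h3 n)]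
    refine clip_mono ?_
    rw [le_div_iff₀ hk8]
    exact h5

/-- the asymptotic size of the weights -/
lemma weights {Ha Hb : ℕ → ℝ} {C : ℝ} (h0 : ∀ᶠ k in atTop, 0 ≤ Ha k) (hab : ∀ k, Ha k ≤ Hb k)
    (hC : ∀ᶠ k : ℕ in atTop, Hb k ≤ C * Real.log k) (r : ℕ) :
    ∀ᶠ k : ℕ in atTop,
      ((len k).choose r : ℝ) * clip (Hb k / (8 * k)) ^ r * (1 - clip (Ha k / (8 * k))) ^ (len k - r) ≤
        Real.exp 1 * (2 * C * Real.log k) ^ r * Real.exp (-Ha k) ∧
      (1 / (r.factorial : ℝ)) * (Ha k / 2) ^ r * (Real.exp (-1) * Real.exp (-Hb k)) ≤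
        ((len k).choose r : ℝ) * clip (Ha k / (8 * k)) ^ r * (1 - clip (Hb k / (8 * k))) ^ (len k - r) := by
  have ho : Tendsto (fun k : ℕ => Real.log k / (k : ℝ)) atTop (𝓝 0) := by
    have h2 := (isLittleO_log_rpow_atTop (r := 1) (by norm_num)).tendsto_div_nhds_zero
    have h3 := h2.comp tendsto_natCast_atTop_atTop
    refine h3.congr fun n => ?_
    simp only [Function.comp_apply, Real.rpow_one]
  have ho2 : Tendsto (fun k : ℕ => Real.log k ^ 2 / (k : ℝ)) atTop (𝓝 0) := by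
    have h2 := (Real.isLittleO_pow_log_id_atTop (n := 2)).tendsto_div_nhds_zero
    exact h2.comp tendsto_natCast_atTop_atTop
  have hD : 0 < |C| + 1 := by positivity
  have e1 : ∀ᶠ k : ℕ in atTop, (|C| + 1) * (r + 8) * (Real.log k / (k : ℝ)) < 1 / 4 := by
    have := ho.const_mul ((|C| + 1) * (r + 8))
    rw [mul_zero] at this
    exact this.eventually_lt_const (by norm_num)
  have e2 : ∀ᶠ k : ℕ in atTop, (|C| + 1) ^ 2 * (Real.log k ^ 2 / (k : ℝ)) < 1 / 4 := by
    have := ho2.const_mul ((|C| + 1) ^ 2)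
    rw [mul_zero] at this
    exact this.eventually_lt_const (by norm_num)
  filter_upwards [h0, hC, e1, e2, eventually_ge_atTop (r + 1), log_top.eventually_ge_atTop 1] with
    k h1 h2 h3 h4 h5 h6
  have hk0 : (0 : ℝ) < k := by exact_mod_cast (by omega : 0 < k)
  have hkr : (r : ℝ) + 1 ≤ k := by exact_mod_cast h5
  have hb0 : 0 ≤ Hb k := h1.trans (hab k)
  have hbC : Hb k ≤ (|C| + 1) * Real.log k := by
    refine h2.trans (mul_le_mul_of_nonneg_right ?_ (by linarith))
    linarith [le_abs_self C]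
  have hC0 : 0 ≤ C * Real.log k := hb0.trans h2
  have hC1 : 0 ≤ C := nonneg_of_mul_nonneg_left hC0 (by linarith)
  have hr0 : (0 : ℝ) ≤ r := Nat.cast_nonneg r
  -- `Hb / k` is small
  have hbk : (r + 8) * (Hb k / k) ≤ 1 / 4 := by
    have h7 : Hb k / k ≤ (|C| + 1) * (Real.log k / k) := by
      rw [← mul_div_assoc]
      exact div_le_div_of_nonneg_right hbC hk0.le
    have h8 := mul_le_mul_of_nonneg_left h7 (show (0 : ℝ) ≤ r + 8 by positivity)
    linarith
  have hbk0 : 0 ≤ Hb k / k := div_nonneg hb0 hk0.le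
  have hbk1 : Hb k / k ≤ 1 / 32 := by nlinarith
  have hrb : r * (Hb k / k) ≤ 1 / 4 := by nlinarith
  have hxb : Hb k / (8 * k) = (Hb k / k) / 8 := by field_simp
  have hxa : Ha k / (8 * k) = (Ha k / k) / 8 := by field_simp
  have hak : Ha k / k ≤ Hb k / k := div_le_div_of_nonneg_right (hab k) hk0.le
  have hak0 : 0 ≤ Ha k / k := div_nonneg h1 hk0.le
  rw [clip_eq (x := Hb k / (8 * k)) (by rw [hxb]; positivity) (by rw [hxb]; linarith),
    clip_eq (x := Ha k / (8 * k)) (by rw [hxa]; positivity) (by rw [hxa]; linarith)]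
  have hlen : ((len k : ℕ) : ℝ) = 8 * k + 7 := by unfold len; push_cast; ring
  have hlr : ((len k - r : ℕ) : ℝ) = 8 * k + 7 - r := by
    rw [Nat.cast_sub (by unfold len; omega), hlen]
  have hlr1 : ((len k + 1 - r : ℕ) : ℝ) = 8 * k + 8 - r := by
    rw [Nat.cast_sub (by unfold len; omega)]
    push_cast
    rw [hlen]; ring
  constructor
  · refine (beta_le (by rw [hxa]; linarith) (by rw [hxb]; positivity)).trans ?_
    rw [hlen, hlr]
    have g1 : (8 * k + 7) * (Hb k / (8 * k)) ≤ 2 * C * Real.log k := by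
      have : (8 * k + 7) * (Hb k / (8 * k)) = Hb k + 7 / 8 * (Hb k / k) := by field_simp
      rw [this]
      have h9 : 7 / 8 * (Hb k / k) ≤ Hb k := by
        have h10 : Hb k / k ≤ Hb k := div_le_self hb0 (by linarith)
        linarith
      linarith
    have g2 : Real.exp (-(Ha k / (8 * k) * (8 * k + 7 - r))) ≤ Real.exp 1 * Real.exp (-Ha k) := by
      rw [← Real.exp_add]
      refine Real.exp_le_exp.2 ?_
      have : Ha k / (8 * k) * (8 * k + 7 - r) = Ha k + (7 - r) / 8 * (Ha k / k) := by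
        field_simp
        ring
      rw [this]
      have h11 : r * (Ha k / k) ≤ 1 / 4 := (mul_le_mul_of_nonneg_left hak hr0).trans hrb
      linarith
    have g3 : 0 ≤ (8 * k + 7) * (Hb k / (8 * k)) := by rw [hxb]; positivity
    calc ((8 * k + 7) * (Hb k / (8 * k))) ^ r * Real.exp (-(Ha k / (8 * k) * (8 * k + 7 - r)))
        ≤ (2 * C * Real.log k) ^ r * (Real.exp 1 * Real.exp (-Ha k)) :=
          mul_le_mul (pow_le_pow_left₀ g3 g1 r) g2 (Real.exp_pos _).le
            (pow_nonneg (g3.trans g1) r)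
      _ = _ := by ring
  · refine le_trans ?_ (alpha_ge (by rw [hxa]; positivity) (by rw [hxb]; positivity) (by rw [hxb]; linarith))
    rw [hlen, hlr1]
    have g1 : Ha k / 2 ≤ (8 * k + 8 - r) * (Ha k / (8 * k)) := by
      have : (8 * k + 8 - r) * (Ha k / (8 * k)) = Ha k * ((8 * k + 8 - r) / (8 * k)) := by ring
      rw [this]
      have h12 : (1 : ℝ) / 2 ≤ (8 * k + 8 - r) / (8 * k) := by
        rw [le_div_iff₀ (by positivity)]
        linarith
      calc Ha k / 2 = Ha k * (1 / 2) := by ring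
        _ ≤ _ := mul_le_mul_of_nonneg_left h12 h1
    have g2 : Real.exp (-1) * Real.exp (-Hb k) ≤
        Real.exp (-((Hb k / (8 * k) + 2 * (Hb k / (8 * k)) ^ 2) * (8 * k + 7))) := by
      rw [← Real.exp_add]
      refine Real.exp_le_exp.2 ?_
      have : (Hb k / (8 * k) + 2 * (Hb k / (8 * k)) ^ 2) * (8 * k + 7) =
          Hb k + 7 / 8 * (Hb k / k) + (Hb k ^ 2 / k) * (1 / 4) * (1 + 7 / (8 * k)) := by
        field_simp
        ring
      rw [this]
      have h13 : Hb k ^ 2 / k ≤ 1 / 4 := by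
        have h14 : Hb k ^ 2 ≤ ((|C| + 1) * Real.log k) ^ 2 := pow_le_pow_left₀ hb0 hbC 2
        rw [mul_pow] at h14
        have h15 : Hb k ^ 2 / k ≤ (|C| + 1) ^ 2 * Real.log k ^ 2 / k :=
          div_le_div_of_nonneg_right h14 hk0.le
        rw [mul_div_assoc] at h15
        linarith
      have h16 : 0 ≤ Hb k ^ 2 / k := by positivity
      have h17 : 7 / (8 * (k : ℝ)) ≤ 1 := by
        rw [div_le_one (by positivity)]
        linarith
      have h18 : 0 ≤ 7 / (8 * (k : ℝ)) := by positivity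
      have h19 : (Hb k ^ 2 / k) * (1 / 4) * (1 + 7 / (8 * k)) ≤ 1 / 4 * (1 / 4) * 2 :=
        mul_le_mul (mul_le_mul_of_nonneg_right h13 (by norm_num)) (by linarith) (by positivity) (by norm_num)
      linarith
    exact mul_le_mul (mul_le_mul_of_nonneg_left (pow_le_pow_left₀ (by linarith) g1 r) (by positivity)) g2
      (by positivity) (by
        have : 0 ≤ (8 * k + 8 - r) * (Ha k / (8 * k)) := (show 0 ≤ Ha k / 2 by linarith).trans g1
        positivity)

end Pool.Agent.N634.OS
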