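import Mathlib
import Pool.Agent.N634.OS.Odd

/-!
# Adapted random sets between consecutive odd squares: the first order threshold
-/

set_option autoImplicit false
set_option linter.unusedSectionVars false

open MeasureTheory Filter Set
open scoped ENNReal Topology

namespace Pool.Agent.N634.OS

open Pool.Agent.R528.RM Pool.Agent.N740.HK

variable {Ω : Type} {m0 : MeasurableSpace Ω} {μ : Measure Ω} [IsProbabilityMeasure μ]
  {ℱ : Filtration ℕ m0} {A : ℕ → Set Ω}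

lemma hb1 {κ a b : ℝ}
    (h : ∀ᵐ ω ∂μ, Tendsto (fun n : ℕ => dens μ ℱ A n ω * √(n : ℝ) / Real.log n) atTop (𝓝 κ))
    (ha : a < κ ∨ a = 0) (hb : κ < b) :
    ∀ᵐ ω ∂μ, ∀ᶠ n : ℕ in atTop, 8 * a * Real.log (R n) ≤ dens μ ℱ A n ω * (8 * R n) ∧
      dens μ ℱ A n ω * (8 * R n) ≤ 8 * b * Real.log (R n) := by
  filter_upwards [h, dens_nonneg (μ := μ) (ℱ := ℱ) A] with ω h1 h2
  have h3 := first h1
  have hup := h3.eventually_lt_const hb
  have hlo : ∀ᶠ n : ℕ in atTop, 8 * a * Real.log (R n) ≤ dens μ ℱ A n ω * (8 * R n) := by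
    rcases ha with ha | ha
    · filter_upwards [h3.eventually_const_lt ha, logR_top.eventually_gt_atTop 0] with n h4 h5
      rw [lt_div_iff₀ h5] at h4
      linarith
    · refine Eventually.of_forall fun n => ?_
      rw [ha]
      have := h2 n
      have h6 : (0 : ℝ) ≤ R n := Nat.cast_nonneg _
      nlinarith [mul_nonneg this h6]
  filter_upwards [hup, hlo, logR_top.eventually_gt_atTop 0] with n h4 h5 h6
  refine ⟨h5, ?_⟩
  rw [div_lt_iff₀ h6] at h4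
  linarith

/-- the bundle of the hypotheses of `block_cor` -/
lemma cor1 (hA : ∀ n, MeasurableSet[ℱ n] (A n)) {Ha Hb : ℕ → ℝ} (hab : ∀ k, Ha k ≤ Hb k)
    (h : ∀ᵐ ω ∂μ, ∀ᶠ n : ℕ in atTop, Ha (R n) ≤ dens μ ℱ A n ω * (8 * R n) ∧
      dens μ ℱ A n ω * (8 * R n) ≤ Hb (R n)) (r : ℕ) :
    (∀ f : ℕ → ℝ, Summable f →
      (∀ᶠ k : ℕ in atTop, ((len k).choose r : ℝ) * clip (Hb k / (8 * k)) ^ r *
        (1 - clip (Ha k / (8 * k))) ^ (len k - r) ≤ f k) →
      ∀ᵐ ω ∂μ, ∀ᶠ k in atTop, cnt A (sq k) (len k) ω ≠ r) ∧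
    (∀ f : ℕ → ℝ, Tendsto (fun K => ∑ k ∈ Finset.range K, f k) atTop atTop →
      (∀ᶠ k : ℕ in atTop, f k ≤ ((len k).choose r : ℝ) * clip (Ha k / (8 * k)) ^ r *
        (1 - clip (Hb k / (8 * k))) ^ (len k - r)) →
      ∀ᵐ ω ∂μ, ∀ᶠ K in atTop, (1 / 2) * ∑ k ∈ Finset.range K, f k ≤ NB A sq len r K ω) ∧
    (∀ f : ℕ → ℝ, Tendsto (fun K => ∑ k ∈ Finset.range K, f k) atTop atTop →
      (∀ᶠ k : ℕ in atTop, ((len k).choose r : ℝ) * clip (Hb k / (8 * k)) ^ r *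
        (1 - clip (Ha k / (8 * k))) ^ (len k - r) ≤ f k) →
      ∀ᵐ ω ∂μ, ∀ᶠ K in atTop, (NB A sq len r K ω : ℝ) ≤ 2 * ∑ k ∈ Finset.range K, f k) :=
  block_cor (μ := μ) (ℱ := ℱ) (A := A) hA sq_mono sq_len (l := fun k => clip (Ha k / (8 * k)))
    (u := fun k => clip (Hb k / (8 * k))) (fun k => (clip_bd _).1)
    (fun k => clip_mono (div_le_div_of_nonneg_right (hab k) (by positivity))) (fun k => (clip_bd _).2)
    (blk_bd hA h) r

lemma pow_absorb {C p : ℝ} (hp : 0 < p) (r : ℕ) : ∀ᶠ k : ℕ in atTop, C * Real.log k ^ r ≤ (k : ℝ) ^ p := by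
  have h3 : (fun x : ℝ => Real.log x ^ r) =o[atTop] fun x => x ^ p := by
    have := isLittleO_log_rpow_rpow_atTop (s := p) (r : ℝ) hp
    simpa [Real.rpow_natCast] using this
  have h4 := (h3.const_mul_left C).comp_tendsto tendsto_natCast_atTop_atTop
  have h5 := h4.def (show (0 : ℝ) < 1 by norm_num)
  filter_upwards [h5] with k hk
  simp only [Function.comp_apply, one_mul] at hk
  rw [Real.norm_of_nonneg (Real.rpow_nonneg (Nat.cast_nonneg k) p)] at hk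
  exact (le_abs_self _).trans hk

lemma up1 {κ θ : ℝ} (hA : ∀ n, MeasurableSet[ℱ n] (A n)) (hκ : 0 ≤ κ)
    (h : ∀ᵐ ω ∂μ, Tendsto (fun n : ℕ => dens μ ℱ A n ω * √(n : ℝ) / Real.log n) atTop (𝓝 κ))
    (hθ : θ < 8 * κ) (r : ℕ) :
    (1 < θ → ∀ᵐ ω ∂μ, ∀ᶠ k in atTop, cnt A (sq k) (len k) ω ≠ r) ∧
    (Tendsto (fun K => ∑ k ∈ Finset.range K, (k : ℝ) ^ (-θ)) atTop atTop →
      ∀ᵐ ω ∂μ, ∀ᶠ K in atTop, (NB A sq len r K ω : ℝ) ≤ 2 * ∑ k ∈ Finset.range K, (k : ℝ) ^ (-θ)) := by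
  set a := max 0 ((θ / 8 + κ) / 2) with hadef
  have ha0 : 0 ≤ a := le_max_left _ _
  have haκ : a < κ ∨ a = 0 := by
    rcases max_cases 0 ((θ / 8 + κ) / 2) with ⟨h1, -⟩ | ⟨h1, -⟩
    · exact Or.inr (hadef.trans h1)
    · left
      rw [hadef, h1]
      linarith
  have haθ : θ < 8 * a := by
    rcases max_cases 0 ((θ / 8 + κ) / 2) with ⟨h1, h2⟩ | ⟨h1, -⟩
    · rw [hadef, h1]
      by_contra hcon
      push Not at hcon
      linarith
    · rw [hadef, h1]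
      linarith
  have hab : ∀ k : ℕ, 8 * a * Real.log k ≤ 8 * (κ + 1) * Real.log k := fun k => by
    refine mul_le_mul_of_nonneg_right ?_ (Real.log_natCast_nonneg k)
    rcases haκ with h1 | h1
    · linarith
    · rw [h1]; linarith
  obtain ⟨c1, -, c3⟩ := cor1 (μ := μ) (ℱ := ℱ) hA (Ha := fun k => 8 * a * Real.log k)
    (Hb := fun k => 8 * (κ + 1) * Real.log k) hab (hb1 h haκ (by linarith)) r
  have hw := weights (Ha := fun k => 8 * a * Real.log k) (Hb := fun k => 8 * (κ + 1) * Real.log k)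
    (C := 8 * (κ + 1)) (Eventually.of_forall fun k => by
      have := Real.log_natCast_nonneg k
      positivity) hab (Eventually.of_forall fun k => le_rfl) r
  have hle : ∀ᶠ k : ℕ in atTop, ((len k).choose r : ℝ) * clip (8 * (κ + 1) * Real.log k / (8 * k)) ^ r *
      (1 - clip (8 * a * Real.log k / (8 * k))) ^ (len k - r) ≤ (k : ℝ) ^ (-θ) := by
    filter_upwards [hw, pow_absorb (C := Real.exp 1 * (2 * (8 * (κ + 1))) ^ r) (p := 8 * a - θ) (by linarith) r,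
      eventually_gt_atTop 0] with k h1 h2 h3
    have hk : (0 : ℝ) < k := by exact_mod_cast h3
    refine h1.1.trans ?_
    have e1 : Real.exp (-(8 * a * Real.log k)) = (k : ℝ) ^ (-(8 * a)) := by
      rw [Real.rpow_def_of_pos hk]
      ring_nf
    rw [e1]
    calc Real.exp 1 * (2 * (8 * (κ + 1)) * Real.log k) ^ r * (k : ℝ) ^ (-(8 * a))
        = (Real.exp 1 * (2 * (8 * (κ + 1))) ^ r * Real.log k ^ r) * (k : ℝ) ^ (-(8 * a)) := by
          rw [mul_pow]; ring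
      _ ≤ (k : ℝ) ^ (8 * a - θ) * (k : ℝ) ^ (-(8 * a)) :=
          mul_le_mul_of_nonneg_right h2 (Real.rpow_nonneg hk.le _)
      _ = (k : ℝ) ^ (-θ) := by rw [← Real.rpow_add hk]; ring_nf
  refine ⟨fun h1 => c1 _ ?_ hle, fun h1 => c3 _ h1 hle⟩
  exact Real.summable_nat_rpow.2 (by linarith)

lemma low1 {κ θ : ℝ} (hA : ∀ n, MeasurableSet[ℱ n] (A n)) (hκ : 0 ≤ κ)
    (h : ∀ᵐ ω ∂μ, Tendsto (fun n : ℕ => dens μ ℱ A n ω * √(n : ℝ) / Real.log n) atTop (𝓝 κ))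
    (hθ : 8 * κ < θ) (hd : Tendsto (fun K => ∑ k ∈ Finset.range K, (k : ℝ) ^ (-θ)) atTop atTop) :
    ∀ᵐ ω ∂μ, ∀ᶠ K in atTop, 1 / 2 * ∑ k ∈ Finset.range K, (k : ℝ) ^ (-θ) ≤ (NB A sq len 0 K ω : ℝ) := by
  set b := (κ + θ / 8) / 2 with hbdef
  have hbκ : κ < b := by rw [hbdef]; linarith
  have hbθ : 8 * b < θ := by rw [hbdef]; linarith
  have hab : ∀ k : ℕ, 8 * (0 : ℝ) * Real.log k ≤ 8 * b * Real.log k := fun k =>
    mul_le_mul_of_nonneg_right (by linarith) (Real.log_natCast_nonneg k)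
  obtain ⟨-, c2, -⟩ := cor1 (μ := μ) (ℱ := ℱ) hA (Ha := fun k => 8 * (0 : ℝ) * Real.log k)
    (Hb := fun k => 8 * b * Real.log k) hab (hb1 h (Or.inr rfl) hbκ) 0
  have hw := weights (Ha := fun k => 8 * (0 : ℝ) * Real.log k) (Hb := fun k => 8 * b * Real.log k)
    (C := 8 * b) (Eventually.of_forall fun k => by simp) hab (Eventually.of_forall fun k => le_rfl) 0
  refine c2 _ hd ?_
  filter_upwards [hw, pow_absorb (C := Real.exp 1) (p := θ - 8 * b) (by linarith) 0,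
    eventually_gt_atTop 0] with k h1 h2 h3
  have hk : (0 : ℝ) < k := by exact_mod_cast h3
  refine le_trans ?_ h1.2
  rw [pow_zero, mul_one] at h2
  have e1 : Real.exp (-(8 * b * Real.log k)) = (k : ℝ) ^ (-(8 * b)) := by
    rw [Real.rpow_def_of_pos hk]
    ring_nf
  rw [e1]
  simp only [Nat.factorial_zero, Nat.cast_one, div_one, pow_zero, mul_one, one_mul]
  have h4 : (k : ℝ) ^ (-θ) = (k : ℝ) ^ (-(8 * b)) * ((k : ℝ) ^ (θ - 8 * b))⁻¹ := by
    rw [← Real.rpow_neg hk.le, ← Real.rpow_add hk]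
    ring_nf
  rw [h4, mul_comm (Real.exp (-1))]
  refine mul_le_mul_of_nonneg_left ?_ (Real.rpow_nonneg hk.le _)
  rw [Real.exp_neg]
  exact inv_anti₀ (Real.exp_pos 1) h2

lemma sum_range_pow {q : ℝ} (hq : 0 < q) : ∃ c C : ℝ, 0 < c ∧ 0 < C ∧ ∀ᶠ K : ℕ in atTop,
    c * (K : ℝ) ^ q ≤ ∑ k ∈ Finset.range K, (k : ℝ) ^ (-(1 - q)) ∧
      ∑ k ∈ Finset.range K, (k : ℝ) ^ (-(1 - q)) ≤ C * (K : ℝ) ^ q := by
  obtain ⟨c, C, hc, hC, h⟩ := sum_pow hq
  have ht : Tendsto (fun K : ℕ => (K : ℝ) ^ q) atTop atTop :=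
    (tendsto_rpow_atTop hq).comp tendsto_natCast_atTop_atTop
  refine ⟨c, C + 1, hc, by linarith, ?_⟩
  filter_upwards [h, eventually_ge_atTop 1, ht.eventually_ge_atTop 1] with K h1 h2 h3
  have e1 : -(1 - q) = q - 1 := by ring
  rw [e1, Finset.range_eq_Ico, Finset.sum_eq_sum_Ico_succ_bot (by omega)]
  have h4 : 0 ≤ ((0 : ℕ) : ℝ) ^ (q - 1) ∧ ((0 : ℕ) : ℝ) ^ (q - 1) ≤ 1 := by
    rw [Nat.cast_zero]
    by_cases h5 : q - 1 = 0
    · rw [h5, Real.rpow_zero]; norm_num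
    · rw [Real.zero_rpow h5]; norm_num
  rw [zero_add]
  constructor
  · linarith [h1.1, h4.1]
  · have : (C + 1) * (K : ℝ) ^ q = C * (K : ℝ) ^ q + (K : ℝ) ^ q := by ring
    rw [this]
    linarith [h1.2, h4.2]

lemma sum_range_top {q : ℝ} (hq : 0 < q) :
    Tendsto (fun K => ∑ k ∈ Finset.range K, (k : ℝ) ^ (-(1 - q))) atTop atTop := by
  obtain ⟨c, C, hc, -, h⟩ := sum_range_pow hq
  have ht : Tendsto (fun K : ℕ => c * (K : ℝ) ^ q) atTop atTop :=
    ((tendsto_rpow_atTop hq).comp tendsto_natCast_atTop_atTop).const_mul_atTop hc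
  refine tendsto_atTop_mono' _ ?_ ht
  filter_upwards [h] with K hK
  exact hK.1

/-- the number of the blocks below `K` with less than `m` chosen integers -/
noncomputable def NL (A : ℕ → Set Ω) (m K : ℕ) (ω : Ω) : ℕ :=
  ((Finset.range K).filter (fun k => cnt A (sq k) (len k) ω < m)).card

lemma NL_eq (m K : ℕ) (ω : Ω) : NL A m K ω = ∑ r ∈ Finset.range m, NB A sq len r K ω := by
  unfold NL NB
  rw [← Finset.card_biUnion]
  · congr 1
    ext k
    simp only [Finset.mem_filter, Finset.mem_range, Finset.mem_biUnion]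
    constructor
    · rintro ⟨h1, h2⟩; exact ⟨_, h2, h1, rfl⟩
    · rintro ⟨r, h1, h2, h3⟩; exact ⟨h2, by omega⟩
  · intro r _ r' _ hrr
    rw [Function.onFun, Finset.disjoint_left]
    intro k h1 h2
    rw [Finset.mem_filter] at h1 h2
    exact hrr (h1.2.symm.trans h2.2)

/-- squeeze for the exponents -/
lemma expo {φ : ℕ → ℝ} (hφ : Tendsto φ atTop atTop) {N : ℕ → ℕ} {e : ℝ}
    (hup : ∀ n : ℕ, ∀ᶠ K in atTop, (N K : ℝ) ≤ Real.exp ((e + 1 / (n + 1)) * φ K))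
    (hlo : ∀ n : ℕ, ∀ᶠ K in atTop, Real.exp ((e - 1 / (n + 1)) * φ K) ≤ N K) :
    Tendsto (fun K => Real.log (N K) / φ K) atTop (𝓝 e) := by
  rw [Metric.tendsto_atTop']
  intro ε hε
  obtain ⟨n, hn⟩ := exists_nat_one_div_lt hε
  have h := ((hup n).and ((hlo n).and (hφ.eventually_gt_atTop 0)))
  obtain ⟨K₀, hK₀⟩ := eventually_atTop.1 h
  refine ⟨K₀, fun K hK => ?_⟩
  obtain ⟨h1, h2, h3⟩ := hK₀ K hK.le
  have h4 : (0 : ℝ) < N K := (Real.exp_pos _).trans_le h2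
  have h5 : Real.log (N K) ≤ (e + 1 / (n + 1)) * φ K := by
    rw [← Real.log_exp ((e + 1 / (n + 1)) * φ K)]
    exact Real.log_le_log h4 h1
  have h6 : (e - 1 / (n + 1)) * φ K ≤ Real.log (N K) := by
    rw [← Real.log_exp ((e - 1 / (n + 1)) * φ K)]
    exact Real.log_le_log (Real.exp_pos _) h2
  rw [Real.dist_eq, abs_lt]
  have h7 : Real.log (N K) / φ K ≤ e + 1 / (n + 1) := by rw [div_le_iff₀ h3]; exact h5
  have h8 : e - 1 / (n + 1) ≤ Real.log (N K) / φ K := by rw [le_div_iff₀ h3]; exact h6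
  constructor <;> linarith

theorem first_law (hA : ∀ n, MeasurableSet[ℱ n] (A n)) {κ : ℝ} (hκ : 0 ≤ κ)
    (h : ∀ᵐ ω ∂μ, Tendsto (fun n : ℕ => dens μ ℱ A n ω * √(n : ℝ) / Real.log n) atTop (𝓝 κ)) :
    (1 / 8 < κ → ∀ᵐ ω ∂μ, Tendsto (fun k => cnt A (sq k) (len k) ω) atTop atTop) ∧
    (κ < 1 / 8 → ∀ m : ℕ, 1 ≤ m → ∀ᵐ ω ∂μ,
      Tendsto (fun K : ℕ => Real.log (NL A m K ω) / Real.log K) atTop (𝓝 (1 - 8 * κ))) := by
  constructor
  · intro hκ8
    have h1 : ∀ r, ∀ᵐ ω ∂μ, ∀ᶠ k in atTop, cnt A (sq k) (len k) ω ≠ r := fun r =>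
      (up1 (θ := (1 + 8 * κ) / 2) hA hκ h (by linarith) r).1 (by linarith)
    have h2 := ae_all_iff.2 h1
    filter_upwards [h2] with ω hω
    rw [tendsto_atTop]
    intro m
    have h3 : ∀ᶠ k in atTop, ∀ r ∈ Finset.range m, cnt A (sq k) (len k) ω ≠ r := by
      rw [Filter.eventually_all_finset]
      exact fun r _ => hω r
    filter_upwards [h3] with k hk
    by_contra hcon
    exact hk _ (Finset.mem_range.2 (not_le.1 hcon)) rfl
  · intro hκ8 m hm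
    have hup : ∀ᵐ ω ∂μ, ∀ n : ℕ, ∀ᶠ K : ℕ in atTop,
        (NL A m K ω : ℝ) ≤ Real.exp ((1 - 8 * κ + 1 / (n + 1)) * Real.log K) := by
      rw [ae_all_iff]
      intro n
      set δ : ℝ := 1 / ((n : ℝ) + 1) with hδ
      have hδ0 : 0 < δ := by positivity
      have hq : 0 < 1 - 8 * κ + δ / 2 := by linarith
      have h1 : ∀ r, ∀ᵐ ω ∂μ, ∀ᶠ K in atTop, (NB A sq len r K ω : ℝ) ≤
          2 * ∑ k ∈ Finset.range K, (k : ℝ) ^ (-(1 - (1 - 8 * κ + δ / 2))) := fun r =>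
        (up1 (θ := 1 - (1 - 8 * κ + δ / 2)) hA hκ h (by linarith) r).2 (sum_range_top hq)
      have h2 := ae_all_iff.2 h1
      obtain ⟨c, C, hc, hC, h3⟩ := sum_range_pow hq
      filter_upwards [h2] with ω hω
      have h4 : ∀ᶠ K in atTop, ∀ r ∈ Finset.range m, (NB A sq len r K ω : ℝ) ≤
          2 * ∑ k ∈ Finset.range K, (k : ℝ) ^ (-(1 - (1 - 8 * κ + δ / 2))) := by
        rw [Filter.eventually_all_finset]
        exact fun r _ => hω r
      filter_upwards [h4, h3, pow_absorb (C := m * (2 * C)) (p := δ / 2) (by linarith) 0,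
        eventually_gt_atTop 0] with K h5 h6 h7 h8
      have hK : (0 : ℝ) < K := by exact_mod_cast h8
      rw [NL_eq, Nat.cast_sum]
      rw [pow_zero, mul_one] at h7
      have e1 : Real.exp ((1 - 8 * κ + δ) * Real.log K) = (K : ℝ) ^ (1 - 8 * κ + δ / 2) * (K : ℝ) ^ (δ / 2) := by
        rw [← Real.rpow_add hK, Real.rpow_def_of_pos hK]
        ring_nf
      rw [e1]
      calc ∑ r ∈ Finset.range m, (NB A sq len r K ω : ℝ) ≤ ∑ r ∈ Finset.range m,
            (2 * (C * (K : ℝ) ^ (1 - 8 * κ + δ / 2))) := Finset.sum_le_sum fun r hr =>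
              (h5 r hr).trans (mul_le_mul_of_nonneg_left h6.2 (by norm_num))
        _ = (K : ℝ) ^ (1 - 8 * κ + δ / 2) * (m * (2 * C)) := by
            rw [Finset.sum_const, Finset.card_range, nsmul_eq_mul]; ring
        _ ≤ _ := mul_le_mul_of_nonneg_left h7 (Real.rpow_nonneg hK.le _)
    have hlo : ∀ᵐ ω ∂μ, ∀ n : ℕ, ∀ᶠ K : ℕ in atTop,
        Real.exp ((1 - 8 * κ - 1 / (n + 1)) * Real.log K) ≤ (NL A m K ω : ℝ) := by
      rw [ae_all_iff]
      intro n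
      set δ : ℝ := min (1 / ((n : ℝ) + 1)) (1 - 8 * κ) with hδ
      have hδ0 : 0 < δ := lt_min (by positivity) (by linarith)
      have hδ1 : δ ≤ 1 / ((n : ℝ) + 1) := min_le_left _ _
      have hδ2 : δ ≤ 1 - 8 * κ := min_le_right _ _
      have hq : 0 < 1 - 8 * κ - δ / 2 := by linarith
      have h1 := low1 (θ := 1 - (1 - 8 * κ - δ / 2)) hA hκ h (by linarith) (sum_range_top hq)
      obtain ⟨c, C, hc, hC, h3⟩ := sum_range_pow hq
      filter_upwards [h1] with ω hω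
      filter_upwards [hω, h3, pow_absorb (C := 2 / c) (p := δ / 2) (by linarith) 0,
        eventually_ge_atTop 1] with K h5 h6 h7 h8
      have hK1 : (1 : ℝ) ≤ K := by exact_mod_cast h8
      have hK : (0 : ℝ) < K := by linarith
      rw [pow_zero, mul_one] at h7
      have h9 : (NB A sq len 0 K ω : ℝ) ≤ NL A m K ω := by
        have : NB A sq len 0 K ω ≤ NL A m K ω := by
          rw [NL_eq]
          exact Finset.single_le_sum (f := fun r => NB A sq len r K ω) (fun _ _ => Nat.zero_le _)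
            (Finset.mem_range.2 hm)
        exact_mod_cast this
      refine le_trans ?_ (h5.trans h9)
      refine le_trans ?_ (mul_le_mul_of_nonneg_left h6.1 (by norm_num))
      have e1 : Real.exp ((1 - 8 * κ - 1 / ((n : ℝ) + 1)) * Real.log K) ≤
          (K : ℝ) ^ (1 - 8 * κ - δ / 2) * ((K : ℝ) ^ (δ / 2))⁻¹ := by
        rw [← Real.rpow_neg hK.le, ← Real.rpow_add hK, Real.rpow_def_of_pos hK]
        refine Real.exp_le_exp.2 ?_
        rw [mul_comm]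
        refine mul_le_mul_of_nonneg_left ?_ (Real.log_nonneg hK1)
        linarith
      refine e1.trans ?_
      have h10 : ((K : ℝ) ^ (δ / 2))⁻¹ ≤ c / 2 := by
        have := inv_anti₀ (show (0 : ℝ) < 2 / c by positivity) h7
        rwa [inv_div] at this
      calc (K : ℝ) ^ (1 - 8 * κ - δ / 2) * ((K : ℝ) ^ (δ / 2))⁻¹
          ≤ (K : ℝ) ^ (1 - 8 * κ - δ / 2) * (c / 2) :=
            mul_le_mul_of_nonneg_left h10 (Real.rpow_nonneg hK.le _)
        _ = 1 / 2 * (c * (K : ℝ) ^ (1 - 8 * κ - δ / 2)) := by ring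
    filter_upwards [hup, hlo] with ω h1 h2
    exact expo log_top h1 h2

end Pool.Agent.N634.OS
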