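import Mathlib
import Pool.Agent.N634.OS.Fst

/-!
# Adapted random sets between consecutive odd squares: the second order threshold
-/

set_option autoImplicit false
set_option linter.unusedSectionVars false

open MeasureTheory Filter Set
open scoped ENNReal Topology

namespace Pool.Agent.N634.OS

open Pool.Agent.R528.RM Pool.Agent.N740.HK

variable {Ω : Type} {m0 : MeasurableSpace Ω} {μ : Measure Ω} [IsProbabilityMeasure μ]
  {ℱ : Filtration ℕ m0} {A : ℕ → Set Ω}

/-- `log k + a log log k` -/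
noncomputable def HH (a : ℝ) (k : ℕ) : ℝ := Real.log k + a * Real.log (Real.log k)

lemma ll_top : Tendsto (fun k : ℕ => Real.log (Real.log k)) atTop atTop :=
  Real.tendsto_log_atTop.comp log_top

lemma ll_small (a : ℝ) : ∀ᶠ k : ℕ in atTop, |a * Real.log (Real.log k)| ≤ Real.log k / 2 := by
  have h1 : Tendsto (fun x : ℝ => Real.log x / x) atTop (𝓝 0) := by
    have h2 := (isLittleO_log_rpow_atTop (r := 1) (by norm_num)).tendsto_div_nhds_zero
    simpa using h2
  have h2 := (h1.comp log_top).const_mul |a|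
  rw [mul_zero] at h2
  filter_upwards [h2.eventually_lt_const (show (0 : ℝ) < 1 / 2 by norm_num), log_top.eventually_gt_atTop 0,
    ll_top.eventually_ge_atTop 0] with k h3 h4 h5
  simp only [Function.comp_apply] at h3
  rw [abs_mul, abs_of_nonneg h5]
  have h6 : |a| * Real.log (Real.log k) = |a| * (Real.log (Real.log k) / Real.log k) * Real.log k := by
    field_simp
  rw [h6]
  nlinarith

lemma hb2 {c a b : ℝ}
    (h : ∀ᵐ ω ∂μ, Tendsto (fun n : ℕ => (4 * √(n : ℝ) * dens μ ℱ A n ω - Real.log n / 2) /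
      Real.log (Real.log n)) atTop (𝓝 c)) (ha : a < c) (hb : c < b) :
    ∀ᵐ ω ∂μ, ∀ᶠ n : ℕ in atTop, HH a (R n) ≤ dens μ ℱ A n ω * (8 * R n) ∧
      dens μ ℱ A n ω * (8 * R n) ≤ HH b (R n) := by
  filter_upwards [h] with ω h1
  have h3 := second h1
  filter_upwards [h3.eventually_const_lt ha, h3.eventually_lt_const hb, llR_top.eventually_gt_atTop 0]
    with n h4 h5 h6
  rw [lt_div_iff₀ h6] at h4
  rw [div_lt_iff₀ h6] at h5
  unfold HH
  constructor <;> linarith

lemma HH_mono {a b : ℝ} (h : a ≤ b) : ∀ᶠ k : ℕ in atTop, HH a k ≤ HH b k := by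
  filter_upwards [ll_top.eventually_ge_atTop 0] with k hk
  unfold HH
  have := mul_le_mul_of_nonneg_right h hk
  linarith

/-- a version which is monotone everywhere -/
noncomputable def HM (a b : ℝ) (k : ℕ) : ℝ := max (HH a k) (HH b k)

lemma HM_eq {a b : ℝ} (h : a ≤ b) : ∀ᶠ k : ℕ in atTop, HM a b k = HH b k := by
  filter_upwards [HH_mono h] with k hk
  exact max_eq_right hk

lemma hb3 {c a b : ℝ}
    (h : ∀ᵐ ω ∂μ, Tendsto (fun n : ℕ => (4 * √(n : ℝ) * dens μ ℱ A n ω - Real.log n / 2) /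
      Real.log (Real.log n)) atTop (𝓝 c)) (ha : a < c) (hb : c < b) :
    ∀ᵐ ω ∂μ, ∀ᶠ n : ℕ in atTop, HH a (R n) ≤ dens μ ℱ A n ω * (8 * R n) ∧
      dens μ ℱ A n ω * (8 * R n) ≤ HM a b (R n) := by
  filter_upwards [hb2 h ha hb] with ω hω
  filter_upwards [hω] with n hn
  exact ⟨hn.1, hn.2.trans (le_max_right _ _)⟩

lemma weights2 {a b : ℝ} (hab : a ≤ b) (r : ℕ) :
    ∀ᶠ k : ℕ in atTop,
      ((len k).choose r : ℝ) * clip (HM a b k / (8 * k)) ^ r * (1 - clip (HH a k / (8 * k))) ^ (len k - r) ≤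
        Real.exp 1 * 4 ^ r * (Real.log k ^ (r - a) / k) ∧
      (1 / (r.factorial : ℝ)) * (1 / 4) ^ r * Real.exp (-1) * (Real.log k ^ (r - b) / k) ≤
        ((len k).choose r : ℝ) * clip (HH a k / (8 * k)) ^ r * (1 - clip (HM a b k / (8 * k))) ^ (len k - r) := by
  have h0 : ∀ᶠ k : ℕ in atTop, 0 ≤ HH a k := by
    filter_upwards [ll_small a, log_top.eventually_ge_atTop 0] with k h1 h2
    unfold HH
    have := (abs_le.1 h1).1
    linarith
  have hC : ∀ᶠ k : ℕ in atTop, HM a b k ≤ 2 * Real.log k := by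
    filter_upwards [ll_small b, log_top.eventually_ge_atTop 0, HM_eq hab] with k h1 h2 h3
    rw [h3]
    unfold HH
    have := (abs_le.1 h1).2
    linarith
  have hw := weights (Ha := HH a) (Hb := HM a b) (C := 2) h0 (fun k => le_max_left _ _) hC r
  filter_upwards [hw, HM_eq hab, ll_small a, log_top.eventually_gt_atTop 0, eventually_gt_atTop 0] with
    k h1 h2 h3 h4 h5
  have hk : (0 : ℝ) < k := by exact_mod_cast h5
  have e1 : ∀ t : ℝ, Real.exp (-HH t k) = Real.log k ^ (-t) / k := by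
    intro t
    unfold HH
    rw [Real.rpow_def_of_pos h4, neg_add, Real.exp_add, Real.exp_neg (Real.log k), Real.exp_log hk]
    rw [mul_comm, div_eq_mul_inv]
    ring_nf
  have e2 : ∀ t : ℝ, Real.log k ^ ((r : ℝ) - t) = Real.log k ^ r * Real.log k ^ (-t) := by
    intro t
    rw [sub_eq_add_neg, Real.rpow_add h4, Real.rpow_natCast]
  have hp : ∀ t : ℝ, 0 ≤ Real.log k ^ t := fun t => Real.rpow_nonneg h4.le t
  constructor
  · refine h1.1.trans (le_of_eq ?_)
    rw [e1 a, e2 a, mul_pow]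
    norm_num
    ring
  · refine le_trans ?_ h1.2
    rw [h2, e1 b, e2 b]
    have h6 : (Real.log k / 4) ^ r ≤ (HH a k / 2) ^ r := by
      refine pow_le_pow_left₀ (by positivity) ?_ r
      unfold HH
      have := (abs_le.1 h3).1
      linarith
    have h7 : 0 ≤ Real.exp (-1) * (Real.log k ^ (-b) / k) := by
      have := hp (-b)
      positivity
    calc (1 / (r.factorial : ℝ)) * (1 / 4) ^ r * Real.exp (-1) * (Real.log k ^ r * Real.log k ^ (-b) / k)
        = (1 / (r.factorial : ℝ)) * (Real.log k / 4) ^ r * (Real.exp (-1) * (Real.log k ^ (-b) / k)) := by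
          rw [div_pow, div_pow]; ring
      _ ≤ _ := mul_le_mul_of_nonneg_right (mul_le_mul_of_nonneg_left h6 (by positivity)) h7

lemma log_absorb {C p : ℝ} (hp : 0 < p) : ∀ᶠ k : ℕ in atTop, C ≤ Real.log k ^ p :=
  ((tendsto_rpow_atTop hp).comp log_top).eventually_ge_atTop C

lemma up2 {c q : ℝ} (hA : ∀ n, MeasurableSet[ℱ n] (A n))
    (h : ∀ᵐ ω ∂μ, Tendsto (fun n : ℕ => (4 * √(n : ℝ) * dens μ ℱ A n ω - Real.log n / 2) /
      Real.log (Real.log n)) atTop (𝓝 c)) (r : ℕ) (hq : (r : ℝ) + 1 - c < q) :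
    (q < 0 → ∀ᵐ ω ∂μ, ∀ᶠ k in atTop, cnt A (sq k) (len k) ω ≠ r) ∧
    (Tendsto (fun K => ∑ k ∈ Finset.range K, Real.log k ^ (q - 1) / k) atTop atTop →
      ∀ᵐ ω ∂μ, ∀ᶠ K in atTop, (NB A sq len r K ω : ℝ) ≤
        2 * ∑ k ∈ Finset.range K, Real.log k ^ (q - 1) / k) := by
  set a := (c + (r + 1 - q)) / 2 with hadef
  have hac : a < c := by rw [hadef]; linarith
  have haq : (r : ℝ) - a < q - 1 := by rw [hadef]; linarith
  obtain ⟨c1, -, c3⟩ := cor1 (μ := μ) (ℱ := ℱ) hA (Ha := HH a) (Hb := HM a (c + 1))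
    (fun k => le_max_left _ _) (hb3 h hac (by linarith)) r
  have hw := weights2 (a := a) (b := c + 1) (by linarith) r
  have hle : ∀ᶠ k : ℕ in atTop, ((len k).choose r : ℝ) * clip (HM a (c + 1) k / (8 * k)) ^ r *
      (1 - clip (HH a k / (8 * k))) ^ (len k - r) ≤ Real.log k ^ (q - 1) / k := by
    filter_upwards [hw, log_absorb (C := Real.exp 1 * 4 ^ r) (p := q - 1 - (r - a)) (by linarith),
      log_top.eventually_gt_atTop 0, eventually_gt_atTop 0] with k h1 h2 h3 h4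
    have hk : (0 : ℝ) < k := by exact_mod_cast h4
    refine h1.1.trans ?_
    have h5 := mul_le_mul_of_nonneg_right h2 (show 0 ≤ Real.log k ^ ((r : ℝ) - a) / k from
      div_nonneg (Real.rpow_nonneg h3.le _) hk.le)
    refine h5.trans (le_of_eq ?_)
    rw [← mul_div_assoc, ← Real.rpow_add h3]
    ring_nf
  exact ⟨fun h1 => c1 _ (summable_log h1) hle, fun h1 => c3 _ h1 hle⟩

lemma low2 {c q : ℝ} (hA : ∀ n, MeasurableSet[ℱ n] (A n))
    (h : ∀ᵐ ω ∂μ, Tendsto (fun n : ℕ => (4 * √(n : ℝ) * dens μ ℱ A n ω - Real.log n / 2) /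
      Real.log (Real.log n)) atTop (𝓝 c)) (r : ℕ) (hq : q < (r : ℝ) + 1 - c)
    (hd : Tendsto (fun K => ∑ k ∈ Finset.range K, Real.log k ^ (q - 1) / k) atTop atTop) :
    ∀ᵐ ω ∂μ, ∀ᶠ K in atTop, 1 / 2 * ∑ k ∈ Finset.range K, Real.log k ^ (q - 1) / k ≤
      (NB A sq len r K ω : ℝ) := by
  set b := (c + (r + 1 - q)) / 2 with hbdef
  have hbc : c < b := by rw [hbdef]; linarith
  have hbq : q - 1 < (r : ℝ) - b := by rw [hbdef]; linarith
  obtain ⟨-, c2, -⟩ := cor1 (μ := μ) (ℱ := ℱ) hA (Ha := HH (c - 1)) (Hb := HM (c - 1) b)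
    (fun k => le_max_left _ _) (hb3 h (by linarith) hbc) r
  have hw := weights2 (a := c - 1) (b := b) (by linarith) r
  refine c2 _ hd ?_
  have hD : (0 : ℝ) < (1 / (r.factorial : ℝ)) * (1 / 4) ^ r * Real.exp (-1) := by
    have : (0 : ℝ) < r.factorial := by exact_mod_cast Nat.factorial_pos r
    positivity
  filter_upwards [hw, log_absorb (C := ((1 / (r.factorial : ℝ)) * (1 / 4) ^ r * Real.exp (-1))⁻¹)
    (p := r - b - (q - 1)) (by linarith), log_top.eventually_gt_atTop 0, eventually_gt_atTop 0] with k h1 h2 h3 h4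
  have hk : (0 : ℝ) < k := by exact_mod_cast h4
  refine le_trans ?_ h1.2
  have h5 := mul_le_mul_of_nonneg_right h2 (show 0 ≤ Real.log k ^ (q - 1) / k from
      div_nonneg (Real.rpow_nonneg h3.le _) hk.le)
  rw [← mul_div_assoc (Real.log (k : ℝ) ^ ((r : ℝ) - b - (q - 1))), ← Real.rpow_add h3, inv_mul_le_iff₀ hD] at h5
  refine h5.trans (le_of_eq ?_)
  ring_nf

lemma sum_range_log {q : ℝ} (hq : 0 < q) : ∃ c C : ℝ, 0 < c ∧ 0 < C ∧ ∀ᶠ K : ℕ in atTop,
    c * Real.log K ^ q ≤ ∑ k ∈ Finset.range K, Real.log k ^ (q - 1) / k ∧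
      ∑ k ∈ Finset.range K, Real.log k ^ (q - 1) / k ≤ C * Real.log K ^ q := by
  obtain ⟨c, C, hc, hC, h⟩ := sum_log hq
  have ht : Tendsto (fun K : ℕ => Real.log K ^ q) atTop atTop := (tendsto_rpow_atTop hq).comp log_top
  refine ⟨c, C + 1, hc, by linarith, ?_⟩
  filter_upwards [h, eventually_ge_atTop 2, ht.eventually_ge_atTop 1] with K h1 h2 h3
  rw [Finset.range_eq_Ico, Finset.sum_eq_sum_Ico_succ_bot (by omega),
    Finset.sum_eq_sum_Ico_succ_bot (by omega)]
  have h4 : Real.log ((0 : ℕ) : ℝ) ^ (q - 1) / ((0 : ℕ) : ℝ) = 0 := by simp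
  have h5 : 0 ≤ Real.log ((0 + 1 : ℕ) : ℝ) ^ (q - 1) / ((0 + 1 : ℕ) : ℝ) ∧
      Real.log ((0 + 1 : ℕ) : ℝ) ^ (q - 1) / ((0 + 1 : ℕ) : ℝ) ≤ 1 := by
    simp only [zero_add, Nat.cast_one, Real.log_one, div_one]
    by_cases h5 : q - 1 = 0
    · rw [h5, Real.rpow_zero]; norm_num
    · rw [Real.zero_rpow h5]; norm_num
  rw [h4, zero_add]
  have e1 : 0 + 1 + 1 = 2 := rfl
  rw [e1]
  constructor
  · linarith [h1.1, h5.1]
  · have : (C + 1) * Real.log K ^ q = C * Real.log K ^ q + Real.log K ^ q := by ring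
    rw [this]
    linarith [h1.2, h5.2]

lemma sum_range_log_top {q : ℝ} (hq : 0 < q) :
    Tendsto (fun K => ∑ k ∈ Finset.range K, Real.log k ^ (q - 1) / k) atTop atTop := by
  obtain ⟨c, C, hc, -, h⟩ := sum_range_log hq
  have ht : Tendsto (fun K : ℕ => c * Real.log K ^ q) atTop atTop :=
    ((tendsto_rpow_atTop hq).comp log_top).const_mul_atTop hc
  refine tendsto_atTop_mono' _ ?_ ht
  filter_upwards [h] with K hK
  exact hK.1

theorem second_law (hA : ∀ n, MeasurableSet[ℱ n] (A n)) {c : ℝ}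
    (h : ∀ᵐ ω ∂μ, Tendsto (fun n : ℕ => (4 * √(n : ℝ) * dens μ ℱ A n ω - Real.log n / 2) /
      Real.log (Real.log n)) atTop (𝓝 c)) (m : ℕ) (hm : 1 ≤ m) :
    ((m : ℝ) < c → ∀ᵐ ω ∂μ, ∀ᶠ k in atTop, m ≤ cnt A (sq k) (len k) ω) ∧
    (c < m → (∀ᵐ ω ∂μ, Tendsto (fun K : ℕ => Real.log (NL A m K ω) / Real.log (Real.log K)) atTop
      (𝓝 (m - c))) ∧ ∀ᵐ ω ∂μ, ∃ᶠ k in atTop, cnt A (sq k) (len k) ω = m - 1) := by
  obtain ⟨m, rfl⟩ : ∃ m', m = m' + 1 := ⟨m - 1, by omega⟩
  rw [Nat.add_sub_cancel]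
  constructor
  · intro hmc
    have h1 : ∀ r : Fin (m + 1), ∀ᵐ ω ∂μ, ∀ᶠ k in atTop, cnt A (sq k) (len k) ω ≠ r := by
      intro r
      have hr : (r : ℕ) ≤ m := Nat.lt_succ_iff.1 r.2
      have hr' : ((r : ℕ) : ℝ) ≤ m := by exact_mod_cast hr
      push_cast at hmc
      exact (up2 (q := ((m : ℝ) + 1 - c) / 2) hA h r (by linarith)).1 (by linarith)
    have h2 := ae_all_iff.2 h1
    filter_upwards [h2] with ω hω
    have h3 : ∀ᶠ k in atTop, ∀ r : Fin (m + 1), cnt A (sq k) (len k) ω ≠ r := eventually_all.2 hω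
    filter_upwards [h3] with k hk
    by_contra hcon
    exact hk ⟨_, not_le.1 hcon⟩ rfl
  · intro hmc
    push_cast at hmc
    have hup : ∀ᵐ ω ∂μ, ∀ n : ℕ, ∀ᶠ K : ℕ in atTop, (NL A (m + 1) K ω : ℝ) ≤
        Real.exp ((((m + 1 : ℕ) : ℝ) - c + 1 / (n + 1)) * Real.log (Real.log K)) := by
      rw [ae_all_iff]
      intro n
      set δ : ℝ := 1 / ((n : ℝ) + 1) with hδ
      have hδ0 : 0 < δ := by positivity
      have hq : 0 < (m : ℝ) + 1 - c + δ / 2 := by linarith
      have h1 : ∀ r : Fin (m + 1), ∀ᵐ ω ∂μ, ∀ᶠ K in atTop, (NB A sq len r K ω : ℝ) ≤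
          2 * ∑ k ∈ Finset.range K, Real.log k ^ ((m : ℝ) + 1 - c + δ / 2 - 1) / k := by
        intro r
        have hr : (r : ℕ) ≤ m := Nat.lt_succ_iff.1 r.2
        have hr' : ((r : ℕ) : ℝ) ≤ m := by exact_mod_cast hr
        exact (up2 (q := (m : ℝ) + 1 - c + δ / 2) hA h r (by linarith)).2 (sum_range_log_top hq)
      have h2 := ae_all_iff.2 h1
      obtain ⟨c', C, hc, hC, h3⟩ := sum_range_log hq
      filter_upwards [h2] with ω hω
      have h4 : ∀ᶠ K in atTop, ∀ r : Fin (m + 1), (NB A sq len r K ω : ℝ) ≤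
          2 * ∑ k ∈ Finset.range K, Real.log k ^ ((m : ℝ) + 1 - c + δ / 2 - 1) / k := eventually_all.2 hω
      filter_upwards [h4, h3, log_absorb (C := (m + 1) * (2 * C)) (p := δ / 2) (by linarith),
        log_top.eventually_gt_atTop 0] with K h5 h6 h7 h8
      rw [NL_eq, Nat.cast_sum]
      have e1 : Real.exp ((((m + 1 : ℕ) : ℝ) - c + δ) * Real.log (Real.log K)) =
          Real.log K ^ ((m : ℝ) + 1 - c + δ / 2) * Real.log K ^ (δ / 2) := by
        rw [← Real.rpow_add h8, Real.rpow_def_of_pos h8]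
        push_cast
        ring_nf
      rw [e1]
      calc ∑ r ∈ Finset.range (m + 1), (NB A sq len r K ω : ℝ) ≤ ∑ r ∈ Finset.range (m + 1),
            (2 * (C * Real.log K ^ ((m : ℝ) + 1 - c + δ / 2))) := Finset.sum_le_sum fun r hr =>
              (h5 ⟨r, Finset.mem_range.1 hr⟩).trans (mul_le_mul_of_nonneg_left h6.2 (by norm_num))
        _ = Real.log K ^ ((m : ℝ) + 1 - c + δ / 2) * ((m + 1) * (2 * C)) := by
            rw [Finset.sum_const, Finset.card_range, nsmul_eq_mul]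
            push_cast
            ring
        _ ≤ _ := mul_le_mul_of_nonneg_left h7 (Real.rpow_nonneg h8.le _)
    have hlow : ∀ δ : ℝ, 0 < δ → δ ≤ (m : ℝ) + 1 - c → ∀ᵐ ω ∂μ, ∀ᶠ K : ℕ in atTop,
        Real.log K ^ ((m : ℝ) + 1 - c - δ) ≤ (NB A sq len m K ω : ℝ) := by
      intro δ hδ0 hδ2
      have hq : 0 < (m : ℝ) + 1 - c - δ / 2 := by linarith
      have h1 := low2 (q := (m : ℝ) + 1 - c - δ / 2) hA h m (by linarith) (sum_range_log_top hq)
      obtain ⟨c', C, hc, hC, h3⟩ := sum_range_log hq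
      filter_upwards [h1] with ω hω
      filter_upwards [hω, h3, log_absorb (C := 2 / c') (p := δ / 2) (by linarith),
        log_top.eventually_gt_atTop 0] with K h5 h6 h7 h8
      refine le_trans ?_ h5
      refine le_trans ?_ (mul_le_mul_of_nonneg_left h6.1 (by norm_num))
      have e1 : Real.log K ^ ((m : ℝ) + 1 - c - δ) =
          Real.log K ^ ((m : ℝ) + 1 - c - δ / 2) * (Real.log K ^ (δ / 2))⁻¹ := by
        rw [← Real.rpow_neg h8.le, ← Real.rpow_add h8]
        ring_nf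
      rw [e1]
      have h10 : (Real.log K ^ (δ / 2))⁻¹ ≤ c' / 2 := by
        have := inv_anti₀ (show (0 : ℝ) < 2 / c' by positivity) h7
        rwa [inv_div] at this
      calc Real.log K ^ ((m : ℝ) + 1 - c - δ / 2) * (Real.log K ^ (δ / 2))⁻¹
          ≤ Real.log K ^ ((m : ℝ) + 1 - c - δ / 2) * (c' / 2) :=
            mul_le_mul_of_nonneg_left h10 (Real.rpow_nonneg h8.le _)
        _ = 1 / 2 * (c' * Real.log K ^ ((m : ℝ) + 1 - c - δ / 2)) := by ring
    constructor
    · have hlo : ∀ᵐ ω ∂μ, ∀ n : ℕ, ∀ᶠ K : ℕ in atTop,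
          Real.exp ((((m + 1 : ℕ) : ℝ) - c - 1 / (n + 1)) * Real.log (Real.log K)) ≤
            (NL A (m + 1) K ω : ℝ) := by
        rw [ae_all_iff]
        intro n
        set δ : ℝ := min (1 / ((n : ℝ) + 1)) ((m : ℝ) + 1 - c) with hδ
        have hδ0 : 0 < δ := lt_min (by positivity) (by linarith)
        have hδ1 : δ ≤ 1 / ((n : ℝ) + 1) := min_le_left _ _
        filter_upwards [hlow δ hδ0 (min_le_right _ _)] with ω hω
        filter_upwards [hω, log_top.eventually_gt_atTop 0, ll_top.eventually_ge_atTop 0] with K h5 h8 h9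
        have h10 : (NB A sq len m K ω : ℝ) ≤ NL A (m + 1) K ω := by
          have : NB A sq len m K ω ≤ NL A (m + 1) K ω := by
            rw [NL_eq]
            exact Finset.single_le_sum (f := fun r => NB A sq len r K ω) (fun _ _ => Nat.zero_le _)
              (Finset.mem_range.2 (Nat.lt_succ_self m))
          exact_mod_cast this
        refine le_trans ?_ (h5.trans h10)
        rw [Real.rpow_def_of_pos h8]
        refine Real.exp_le_exp.2 ?_
        rw [mul_comm]
        refine mul_le_mul_of_nonneg_left ?_ h9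
        push_cast
        linarith
      filter_upwards [hup, hlo] with ω h1 h2
      exact expo ll_top h1 h2
    · have hδ0 : 0 < ((m : ℝ) + 1 - c) / 2 := by linarith
      filter_upwards [hlow _ hδ0 (by linarith)] with ω hω
      by_contra hcon
      rw [not_frequently] at hcon
      obtain ⟨k₀, hk₀⟩ := eventually_atTop.1 hcon
      have h2 : ∀ K, NB A sq len m K ω ≤ k₀ := by
        intro K
        unfold NB
        have h7 : (Finset.range K).filter (fun k => cnt A (sq k) (len k) ω = m) ⊆ Finset.range k₀ := by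
          intro k hk
          rw [Finset.mem_filter] at hk
          rw [Finset.mem_range]
          by_contra hcon
          exact hk₀ k (not_lt.1 hcon) hk.2
        have := Finset.card_le_card h7
        rwa [Finset.card_range] at this
      have h3 := log_absorb (C := (k₀ : ℝ) + 1) (p := (m : ℝ) + 1 - c - ((m : ℝ) + 1 - c) / 2) (by linarith)
      obtain ⟨K, h4, h5⟩ := (hω.and h3).exists
      have h6 : (NB A sq len m K ω : ℝ) ≤ k₀ := by exact_mod_cast h2 K
      linarith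

end Pool.Agent.N634.OS
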