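import Mathlib
import Pool.Agent.N634.OS.Snd
import Pool.Agent.N740.HK.Short

/-!
# Adapted random sets between consecutive odd squares: translation
-/

set_option autoImplicit false
set_option linter.unusedSectionVars false

open MeasureTheory Filter Set
open scoped ENNReal Topology

namespace Pool.Agent.N634.OS

open Pool.Agent.R528.RM Pool.Agent.N740.HK

variable {Ω : Type} {m0 : MeasurableSpace Ω} {μ : Measure Ω} [IsProbabilityMeasure μ]
  {ℱ : Filtration ℕ m0} {A : ℕ → Set Ω}

/-- The number of the chosen integers between `(2 k - 1) ^ 2` and `(2 k + 1) ^ 2`. -/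
noncomputable def between (A : ℕ → Set Ω) (k : ℕ) (ω : Ω) : ℕ :=
  {n : ℕ | (2 * k - 1) ^ 2 < n ∧ n < (2 * k + 1) ^ 2 ∧ ω ∈ A n}.ncard

/-- The number of the `k` between `1` and `K` with less than `m` chosen integers between
`(2 k - 1) ^ 2` and `(2 k + 1) ^ 2`. -/
noncomputable def fewer (A : ℕ → Set Ω) (m K : ℕ) (ω : Ω) : ℕ :=
  {k : ℕ | 1 ≤ k ∧ k ≤ K ∧ between A k ω < m}.ncard

lemma between_succ (k : ℕ) (ω : Ω) : between A (k + 1) ω = cnt A (sq k) (len k) ω := by
  classical
  have h1 : {n : ℕ | (2 * (k + 1) - 1) ^ 2 < n ∧ n < (2 * (k + 1) + 1) ^ 2 ∧ ω ∈ A n} =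
      ↑(((Finset.range (len k)).filter (fun r => ω ∈ A (sq k + 1 + r))).image (fun r => sq k + 1 + r)) := by
    ext n
    simp only [Finset.coe_image, Finset.coe_filter, Finset.mem_range, mem_image, mem_ofPred_eq]
    have e1 : 2 * (k + 1) - 1 = 2 * k + 1 := by omega
    have e2 : (2 * (k + 1) + 1) ^ 2 = sq k + 1 + len k := by unfold sq len; ring
    have e3 : (2 * k + 1) ^ 2 = sq k := rfl
    rw [e1, e2, e3]
    constructor
    · rintro ⟨h1, h2, h3⟩
      refine ⟨n - (sq k + 1), ⟨by omega, ?_⟩, by omega⟩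
      rwa [show sq k + 1 + (n - (sq k + 1)) = n by omega]
    · rintro ⟨r, ⟨h1, h2⟩, rfl⟩
      exact ⟨by omega, by omega, h2⟩
  unfold between
  rw [h1, ncard_coe_finset, Finset.card_image_of_injective _ (fun a b h => by
    have h' := h
    omega)]
  unfold cnt
  rw [Finset.card_filter]

lemma fewer_eq (m K : ℕ) (ω : Ω) : fewer A m K ω = NL A m K ω := by
  classical
  have h1 : {k : ℕ | 1 ≤ k ∧ k ≤ K ∧ between A k ω < m} =
      ↑(((Finset.range K).filter (fun k => cnt A (sq k) (len k) ω < m)).image (fun k => k + 1)) := by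
    ext k
    simp only [Finset.coe_image, Finset.coe_filter, Finset.mem_range, mem_image, mem_ofPred_eq]
    constructor
    · rintro ⟨h1, h2, h3⟩
      obtain ⟨k, rfl⟩ : ∃ k', k = k' + 1 := ⟨k - 1, by omega⟩
      rw [between_succ] at h3
      exact ⟨k, ⟨by omega, h3⟩, rfl⟩
    · rintro ⟨k, ⟨h1, h2⟩, rfl⟩
      rw [between_succ]
      exact ⟨by omega, by omega, h2⟩
  unfold fewer NL
  rw [h1, ncard_coe_finset, Finset.card_image_of_injective _ (fun a b h => by
    have h' := h
    omega)]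

/-- the models of the primes -/
theorem prime_model (hA : ∀ n, MeasurableSet[ℱ n] (A n))
    (hd : ∀ᵐ ω ∂μ, Tendsto (fun n : ℕ => dens μ ℱ A n ω * Real.log n) atTop (𝓝 1)) :
    ∀ᵐ ω ∂μ, Tendsto (fun k : ℕ => (between A k ω : ℝ) * Real.log k / (4 * k)) atTop (𝓝 1) := by
  have hsh : ∀ n : ℕ, ∃ K : ℝ, 0 < K ∧ ∀ᵐ ω ∂μ, ∀ᶠ x : ℕ in atTop, ∀ H : ℕ,
      K * Real.log x ^ 2 ≤ H → H ≤ x →
        |(cnt A x H ω : ℝ) - H / Real.log x| ≤ 1 / ((n : ℝ) + 1) * (H / Real.log x) := fun n =>
    short hA hd (by positivity)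
  choose K hK hsh using hsh
  have hsq : Tendsto sq atTop atTop := tendsto_atTop_mono (f := fun k : ℕ => k) (fun k => by unfold sq; nlinarith) tendsto_id
  have hsqr : ∀ k : ℕ, Real.log (sq k) = 2 * Real.log (2 * k + 1) := by
    intro k
    unfold sq
    push_cast
    rw [Real.log_pow]
    norm_num
  have hlog : Tendsto (fun k : ℕ => Real.log (2 * (k : ℝ) + 1)) atTop atTop := by
    refine Real.tendsto_log_atTop.comp ?_
    exact tendsto_atTop_add_const_right _ _ (tendsto_natCast_atTop_atTop.const_mul_atTop (by norm_num))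
  -- the logarithms are comparable
  have hT : Tendsto (fun k : ℕ => Real.log (2 * (k : ℝ) + 1) - Real.log ((k : ℝ) + 1)) atTop
      (𝓝 (Real.log 2)) := by
    have h1 : Tendsto (fun k : ℕ => 2 - 1 / ((k : ℝ) + 1)) atTop (𝓝 (2 - 0)) :=
      tendsto_one_div_add_atTop_nhds_zero_nat.const_sub 2
    rw [sub_zero] at h1
    refine (h1.log (by norm_num)).congr fun k => ?_
    have hk : (0 : ℝ) < (k : ℝ) + 1 := by positivity
    rw [← Real.log_div (by positivity) hk.ne']
    congr 1
    field_simp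
    ring
  have hR : Tendsto (fun k : ℕ => Real.log ((k : ℝ) + 1) / Real.log (2 * (k : ℝ) + 1)) atTop (𝓝 1) := by
    have h1 := (hT.div_atTop hlog).const_sub 1
    rw [sub_zero] at h1
    refine h1.congr' ?_
    filter_upwards [hlog.eventually_gt_atTop 0] with k hk
    field_simp
    ring
  have hS : Tendsto (fun k : ℕ => ((len k : ℕ) : ℝ) / (8 * ((k : ℝ) + 1))) atTop (𝓝 1) := by
    have h1 : Tendsto (fun k : ℕ => 1 - 1 / 8 * (1 / ((k : ℝ) + 1))) atTop (𝓝 (1 - 1 / 8 * 0)) :=
      (tendsto_one_div_add_atTop_nhds_zero_nat.const_mul _).const_sub 1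
    rw [mul_zero, sub_zero] at h1
    refine h1.congr fun k => ?_
    have hk : (0 : ℝ) < (k : ℝ) + 1 := by positivity
    unfold len
    push_cast
    field_simp
    ring
  have hlen : ∀ C : ℝ, ∀ᶠ k : ℕ in atTop, C * Real.log (sq k) ^ 2 ≤ len k := by
    intro C
    have h2 := (Real.isLittleO_pow_log_id_atTop (n := 2)).tendsto_div_nhds_zero
    have ht : Tendsto (fun k : ℕ => 2 * (k : ℝ) + 1) atTop atTop :=
      tendsto_atTop_add_const_right _ _ (tendsto_natCast_atTop_atTop.const_mul_atTop (by norm_num))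
    have h3 := (h2.comp ht).const_mul (4 * C)
    rw [mul_zero] at h3
    filter_upwards [h3.eventually_lt_const (show (0 : ℝ) < 1 by norm_num)] with k hk
    simp only [Function.comp_apply, id] at hk
    have hk0 : (0 : ℝ) < 2 * (k : ℝ) + 1 := by positivity
    rw [← mul_div_assoc, div_lt_iff₀ hk0] at hk
    rw [hsqr]
    unfold len
    push_cast
    have : C * (2 * Real.log (2 * (k : ℝ) + 1)) ^ 2 = 4 * C * Real.log (2 * (k : ℝ) + 1) ^ 2 := by ring
    rw [this]
    have hk1 : (0 : ℝ) ≤ k := Nat.cast_nonneg k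
    linarith
  have hall := ae_all_iff.2 hsh
  filter_upwards [hall] with ω hω
  have key : Tendsto (fun k : ℕ => (cnt A (sq k) (len k) ω : ℝ) * Real.log (sq k) / (len k : ℕ)) atTop
      (𝓝 1) := by
    rw [Metric.tendsto_atTop']
    intro ε hε
    obtain ⟨n, hn⟩ := exists_nat_one_div_lt hε
    have h1 := hsq.eventually (hω n)
    have h2 : ∀ᶠ k : ℕ in atTop, |(cnt A (sq k) (len k) ω : ℝ) * Real.log (sq k) / (len k : ℕ) - 1| < ε := by
      filter_upwards [h1, hlen (K n), eventually_ge_atTop 2, hlog.eventually_gt_atTop 0] with k h3 h4 h5 h6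
      have h7 := h3 (len k) h4 (by unfold len sq; nlinarith)
      have hL : 0 < Real.log (sq k) := by rw [hsqr]; linarith
      have hH : (0 : ℝ) < ((len k : ℕ) : ℝ) := by unfold len; positivity
      have hHL : (0 : ℝ) < ((len k : ℕ) : ℝ) / Real.log (sq k) := by positivity
      have e1 : (cnt A (sq k) (len k) ω : ℝ) * Real.log (sq k) / (len k : ℕ) - 1 =
          ((cnt A (sq k) (len k) ω : ℝ) - (len k : ℕ) / Real.log (sq k)) /
            (((len k : ℕ) : ℝ) / Real.log (sq k)) := by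
        field_simp
      rw [e1, abs_div, abs_of_pos hHL, div_lt_iff₀ hHL]
      exact h7.trans_lt (mul_lt_mul_of_pos_right hn hHL)
    obtain ⟨N, hN⟩ := eventually_atTop.1 h2
    exact ⟨N, fun k hk => by rw [Real.dist_eq]; exact hN k hk.le⟩
  have h1 := (key.mul hS).mul hR
  rw [one_mul, one_mul] at h1
  rw [← tendsto_add_atTop_iff_nat 1]
  refine h1.congr' ?_
  filter_upwards [hlog.eventually_gt_atTop 0] with k hk
  rw [between_succ, hsqr]
  have hk1 : (0 : ℝ) < (k : ℝ) + 1 := by positivity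
  have hH : (0 : ℝ) < ((len k : ℕ) : ℝ) := by unfold len; positivity
  push_cast
  field_simp
  ring

end Pool.Agent.N634.OS
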